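import Mathlib

/-! Random places hidden in random faults: a second moment bound. -/

set_option autoImplicit false

namespace Pool.Agent.K6.H1.UG

open Finset

section

variable {E : Type} [Fintype E] [DecidableEq E] {D : ℕ} [NeZero D]

/-- the patterns that vanish on `B` -/
def Van (B : Finset E) : Finset (E → Fin D) := univ.filter fun f => ∀ e ∈ B, f e = 0

lemma card_van (B : Finset E) : ((Van (D := D) B).card : ℝ) * (D : ℝ) ^ B.card = (D : ℝ) ^ Fintype.card E := by
  classical
  have h1 : Van (D := D) B = Fintype.piFinset (fun e : E => if e ∈ B then {(0 : Fin D)} else univ) := by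
    ext f
    simp only [Van, mem_filter, mem_univ, true_and, Fintype.mem_piFinset]
    constructor
    · intro h e
      by_cases he : e ∈ B
      · rw [if_pos he, mem_singleton]
        exact h e he
      · rw [if_neg he]
        exact mem_univ _
    · intro h e he
      have := h e
      rw [if_pos he, mem_singleton] at this
      exact this
  rw [h1, Fintype.card_piFinset]
  have h2 : (∏ e : E, (if e ∈ B then {(0 : Fin D)} else univ : Finset (Fin D)).card) =
      D ^ (univ \ B).card := by
    have h3 : ∀ e : E, (if e ∈ B then {(0 : Fin D)} else univ : Finset (Fin D)).card =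
        if e ∈ B then 1 else D := by
      intro e
      split_ifs <;> simp
    rw [Finset.prod_congr rfl (fun e _ => h3 e), Finset.prod_ite]
    simp only [prod_const_one, one_mul, prod_const]
    congr 2
    ext e
    simp
  rw [h2]
  push_cast
  rw [← pow_add]
  congr 1
  have := Finset.card_sdiff_add_card_eq_card (Finset.subset_univ B)
  rw [Finset.card_univ] at this
  exact this

/-- the pattern is set to zero on `B` -/
def zero (B : Finset E) (f : E → Fin D) : E → Fin D := fun e => if e ∈ B then 0 else f e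

lemma sum_zero (B : Finset E) (φ : (E → Fin D) → ℝ) :
    ∑ f : E → Fin D, φ (zero B f) = (D : ℝ) ^ B.card * ∑ f ∈ Van B, φ f := by
  classical
  have h0 : ∀ f : E → Fin D, zero B f ∈ Van (D := D) B := by
    intro f
    simp only [Van, mem_filter, mem_univ, true_and]
    intro e he
    simp [zero, he]
  rw [← Finset.sum_fiberwise_of_maps_to (s := univ) (t := Van (D := D) B) (g := zero B)
    (fun f _ => h0 f), Finset.mul_sum]
  refine Finset.sum_congr rfl (fun g hg => ?_)
  have h1 : ∑ f ∈ univ.filter (fun f : E → Fin D => zero B f = g), φ (zero B f) =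
      ∑ f ∈ univ.filter (fun f : E → Fin D => zero B f = g), φ g := by
    refine Finset.sum_congr rfl (fun f hf => ?_)
    rw [(mem_filter.mp hf).2]
  rw [h1, Finset.sum_const, nsmul_eq_mul]
  congr 1
  have hg' : ∀ e ∈ B, g e = 0 := by
    simpa only [Van, mem_filter, mem_univ, true_and] using hg
  have h2 : (univ.filter fun f : E → Fin D => zero B f = g) =
      Fintype.piFinset (fun e : E => if e ∈ B then (univ : Finset (Fin D)) else {g e}) := by
    ext f
    simp only [mem_filter, mem_univ, true_and, Fintype.mem_piFinset]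
    constructor
    · intro h e
      by_cases he : e ∈ B
      · rw [if_pos he]
        exact mem_univ _
      · rw [if_neg he, mem_singleton, ← h]
        simp [zero, he]
    · intro h
      funext e
      have h3 := h e
      by_cases he : e ∈ B
      · simp only [zero, he, if_true]
        exact (hg' e he).symm
      · rw [if_neg he, mem_singleton] at h3
        simp only [zero, he, if_false]
        exact h3
  rw [h2, Fintype.card_piFinset]
  have h3 : ∀ e : E, (if e ∈ B then (univ : Finset (Fin D)) else {g e}).card =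
      if e ∈ B then D else 1 := by
    intro e
    split_ifs <;> simp
  rw [Finset.prod_congr rfl (fun e _ => h3 e), Finset.prod_ite]
  simp only [prod_const_one, mul_one, prod_const]
  push_cast
  congr 2
  ext e
  simp

variable {A G : Type} [Fintype A] [DecidableEq A] [Fintype G] [DecidableEq G]

/-- the places of `τ` -/
def plc (slot : A × G ↪ E) (τ : A → G) : Finset E := univ.image fun a => slot (a, τ a)

lemma mem_plc {slot : A × G ↪ E} {τ : A → G} {e : E} :
    e ∈ plc slot τ ↔ ∃ a, slot (a, τ a) = e := by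
  simp [plc]

lemma card_plc (slot : A × G ↪ E) (τ : A → G) : (plc slot τ).card = Fintype.card A := by
  rw [plc, Finset.card_image_of_injective, Finset.card_univ]
  intro a b h
  exact (Prod.mk.inj (slot.injective h)).1

lemma card_inter_plc (slot : A × G ↪ E) (τ τ' : A → G) :
    (plc slot τ ∩ plc slot τ').card = (univ.filter fun a => τ a = τ' a).card := by
  have h1 : plc slot τ ∩ plc slot τ' =
      (univ.filter fun a => τ a = τ' a).image fun a => slot (a, τ a) := by
    ext e
    simp only [mem_inter, mem_plc, mem_image, mem_filter, mem_univ, true_and]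
    constructor
    · rintro ⟨⟨a, ha⟩, ⟨b, hb⟩⟩
      have h2 := Prod.mk.inj (slot.injective (ha.trans hb.symm))
      refine ⟨a, ?_, ha⟩
      rw [h2.2, ← h2.1]
    · rintro ⟨a, h2, h3⟩
      refine ⟨⟨a, h3⟩, ⟨a, ?_⟩⟩
      rw [← h2]
      exact h3
  rw [h1, Finset.card_image_of_injective]
  intro a b h
  exact (Prod.mk.inj (slot.injective h)).1

lemma card_van_union (slot : A × G ↪ E) (τ τ' : A → G) :
    ((Van (D := D) (plc slot τ ∪ plc slot τ')).card : ℝ) * (D : ℝ) ^ (2 * Fintype.card A) =
      (D : ℝ) ^ Fintype.card E * (D : ℝ) ^ (univ.filter fun a => τ a = τ' a).card := by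
  have h1 := card_van (D := D) (plc slot τ ∪ plc slot τ')
  have h2 := Finset.card_union_add_card_inter (plc slot τ) (plc slot τ')
  rw [card_inter_plc, card_plc, card_plc] at h2
  rw [← h1, mul_assoc, ← pow_add, h2]
  congr 2
  ring

/-- the pairs of places with their numbers of agreements -/
lemma sum_agree :
    ∑ τ : A → G, ∑ τ' : A → G, (D : ℝ) ^ (univ.filter fun a => τ a = τ' a).card =
      ((Fintype.card G : ℝ) ^ 2 + Fintype.card G * ((D : ℝ) - 1)) ^ Fintype.card A := by
  classical
  have h1 : ∀ p : G × G → ℝ, True := fun _ => trivial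
  have h2 : ∏ _a : A, ∑ s ∈ (univ : Finset (G × G)), (if s.1 = s.2 then (D : ℝ) else 1) =
      ∑ p ∈ Fintype.piFinset (fun _ : A => (univ : Finset (G × G))),
        ∏ a : A, (if (p a).1 = (p a).2 then (D : ℝ) else 1) :=
    Finset.prod_univ_sum (fun _ : A => (univ : Finset (G × G)))
      (fun _ s => if s.1 = s.2 then (D : ℝ) else 1)
  have h3 : ∑ s ∈ (univ : Finset (G × G)), (if s.1 = s.2 then (D : ℝ) else 1) =
      (Fintype.card G : ℝ) ^ 2 + Fintype.card G * ((D : ℝ) - 1) := by
    rw [Fintype.sum_prod_type]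
    have h4 : ∀ s : G, ∑ t : G, (if s = t then (D : ℝ) else 1) =
        Fintype.card G + ((D : ℝ) - 1) := by
      intro s
      have h5 : ∀ t : G, (if s = t then (D : ℝ) else 1) = 1 + if s = t then (D : ℝ) - 1 else 0 := by
        intro t
        split_ifs <;> ring
      rw [Finset.sum_congr rfl (fun t _ => h5 t), Finset.sum_add_distrib]
      simp
    simp only [h4, Finset.sum_const, nsmul_eq_mul, Finset.card_univ]
    ring
  rw [h3, Finset.prod_const, Finset.card_univ] at h2
  rw [h2, Fintype.piFinset_univ, ← Finset.sum_product', Finset.univ_product_univ]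
  refine Finset.sum_bij' (fun q _ a => (q.1 a, q.2 a)) (fun p _ => (fun a => (p a).1, fun a => (p a).2))
    (fun _ _ => mem_univ _) (fun _ _ => mem_univ _) (fun _ _ => rfl) (fun _ _ => rfl) ?_
  rintro ⟨τ, τ'⟩ -
  rw [Finset.prod_ite]
  simp

/-- Random places can be added to random faults: the acceptance probability changes by at most
`c`. -/
theorem hide_chi (slot : A × G ↪ E) [Nonempty G] (φ : (E → Fin D) → ℝ) (h0 : ∀ f, 0 ≤ φ f)
    (h1 : ∀ f, φ f ≤ 1) (c : ℝ) (hc : 0 ≤ c)
    (hK : (1 + ((D : ℝ) - 1) / Fintype.card G) ^ Fintype.card A ≤ 1 + c ^ 2) :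
    (Fintype.card (A → G) : ℝ) * (∑ f : E → Fin D, φ f - c * (D : ℝ) ^ Fintype.card E) ≤
      ∑ τ : A → G, ∑ f : E → Fin D, φ (zero (plc slot τ) f) := by
  classical
  set N : ℝ := (D : ℝ) ^ Fintype.card E with hN
  set T : ℝ := (Fintype.card (A → G) : ℝ) with hT
  set a : ℕ := Fintype.card A with ha
  have hDpos : (0 : ℝ) < D := by exact_mod_cast Nat.pos_of_ne_zero (NeZero.ne D)
  have hGpos : (0 : ℝ) < Fintype.card G := by exact_mod_cast Fintype.card_pos
  have hNpos : 0 < N := by positivity
  have hTpos : 0 < T := by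
    rw [hT]
    exact_mod_cast Fintype.card_pos
  have hTG : T = (Fintype.card G : ℝ) ^ a := by
    rw [hT, Fintype.card_fun]
    push_cast
    rfl
  -- the weight
  set W : (E → Fin D) → ℝ := fun f =>
    (D : ℝ) ^ a / T * ∑ τ : A → G, (if f ∈ Van (D := D) (plc slot τ) then (1 : ℝ) else 0) with hW
  have hsum : ∑ τ : A → G, ∑ f : E → Fin D, φ (zero (plc slot τ) f) =
      T * ∑ f : E → Fin D, φ f * W f := by
    have e1 : ∀ τ : A → G, ∑ f : E → Fin D, φ (zero (plc slot τ) f) =
        ∑ f : E → Fin D, (D : ℝ) ^ a * (φ f * if f ∈ Van (D := D) (plc slot τ) then (1 : ℝ) else 0) := by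
      intro τ
      rw [sum_zero, card_plc, ← Finset.mul_sum]
      congr 1
      simp [Finset.sum_ite_mem]
    rw [Finset.sum_congr rfl (fun τ _ => e1 τ), Finset.sum_comm, Finset.mul_sum]
    refine Finset.sum_congr rfl (fun f _ => ?_)
    rw [hW]
    simp only
    rw [← Finset.mul_sum, ← Finset.mul_sum]
    field_simp
  have hW1 : ∑ f : E → Fin D, W f = N := by
    rw [hW]
    simp only
    rw [← Finset.mul_sum, Finset.sum_comm]
    have e1 : ∀ τ : A → G, ∑ f : E → Fin D, (if f ∈ Van (D := D) (plc slot τ) then (1 : ℝ) else 0) =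
        N / (D : ℝ) ^ a := by
      intro τ
      have e2 := card_van (D := D) (plc slot τ)
      rw [card_plc] at e2
      rw [Finset.sum_boole, eq_div_iff (by positivity), hN, ← e2]
      congr 3
      ext f
      simp
    rw [Finset.sum_congr rfl (fun τ _ => e1 τ), Finset.sum_const, nsmul_eq_mul, Finset.card_univ]
    rw [← hT]
    field_simp
  have hW2 : ∑ f : E → Fin D, W f ^ 2 = N * (1 + ((D : ℝ) - 1) / Fintype.card G) ^ a := by
    have e1 : ∀ f : E → Fin D, W f ^ 2 = ((D : ℝ) ^ a / T) ^ 2 * ∑ τ : A → G, ∑ τ' : A → G,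
        (if f ∈ Van (D := D) (plc slot τ ∪ plc slot τ') then (1 : ℝ) else 0) := by
      intro f
      rw [hW]
      simp only
      rw [mul_pow, sq (∑ τ : A → G, _), Finset.sum_mul_sum]
      congr 1
      refine Finset.sum_congr rfl (fun τ _ => Finset.sum_congr rfl (fun τ' _ => ?_))
      have e2 : f ∈ Van (D := D) (plc slot τ ∪ plc slot τ') ↔
          f ∈ Van (D := D) (plc slot τ) ∧ f ∈ Van (D := D) (plc slot τ') := by
        simp only [Van, mem_filter, mem_univ, true_and, mem_union]
        constructor
        · intro h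
          exact ⟨fun e he => h e (Or.inl he), fun e he => h e (Or.inr he)⟩
        · rintro ⟨h, h'⟩ e (he | he)
          · exact h e he
          · exact h' e he
      by_cases hf1 : f ∈ Van (D := D) (plc slot τ)
      · by_cases hf2 : f ∈ Van (D := D) (plc slot τ')
        · rw [if_pos hf1, if_pos hf2, if_pos (e2.mpr ⟨hf1, hf2⟩), one_mul]
        · rw [if_pos hf1, if_neg hf2, if_neg (fun h => hf2 (e2.mp h).2), mul_zero]
      · rw [if_neg hf1, if_neg (fun h => hf1 (e2.mp h).1), zero_mul]
    rw [Finset.sum_congr rfl (fun f _ => e1 f), ← Finset.mul_sum, Finset.sum_comm]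
    have e3 : ∀ τ : A → G, ∑ f : E → Fin D, ∑ τ' : A → G,
        (if f ∈ Van (D := D) (plc slot τ ∪ plc slot τ') then (1 : ℝ) else 0) =
        ∑ τ' : A → G, N * (D : ℝ) ^ (univ.filter fun x => τ x = τ' x).card / (D : ℝ) ^ (2 * a) := by
      intro τ
      rw [Finset.sum_comm]
      refine Finset.sum_congr rfl (fun τ' _ => ?_)
      rw [Finset.sum_boole, eq_div_iff (by positivity), ← card_van_union slot τ τ']
      congr 3
      ext f
      simp
    rw [Finset.sum_congr rfl (fun τ _ => e3 τ)]
    have e4 : ∑ τ : A → G, ∑ τ' : A → G,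
        N * (D : ℝ) ^ (univ.filter fun x => τ x = τ' x).card / (D : ℝ) ^ (2 * a) =
        N / (D : ℝ) ^ (2 * a) * ∑ τ : A → G, ∑ τ' : A → G,
          (D : ℝ) ^ (univ.filter fun x => τ x = τ' x).card := by
      rw [Finset.mul_sum]
      refine Finset.sum_congr rfl (fun τ _ => ?_)
      rw [Finset.mul_sum]
      refine Finset.sum_congr rfl (fun τ' _ => ?_)
      ring
    rw [e4, sum_agree (D := D) (A := A) (G := G), hTG]
    have e5 : ((Fintype.card G : ℝ) ^ 2 + Fintype.card G * ((D : ℝ) - 1)) =
        (Fintype.card G : ℝ) ^ 2 * (1 + ((D : ℝ) - 1) / Fintype.card G) := by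
      field_simp
    rw [e5, mul_pow, ← ha]
    field_simp
    ring
  -- the variance
  have hvar : ∑ f : E → Fin D, (1 - W f) ^ 2 ≤ N * c ^ 2 := by
    have e1 : ∑ f : E → Fin D, (1 - W f) ^ 2 = ∑ f : E → Fin D, (1 : ℝ) - 2 * ∑ f : E → Fin D, W f +
        ∑ f : E → Fin D, W f ^ 2 := by
      rw [Finset.mul_sum, ← Finset.sum_sub_distrib, ← Finset.sum_add_distrib]
      exact Finset.sum_congr rfl (fun f _ => by ring)
    have e2 : ∑ f : E → Fin D, (1 : ℝ) = N := by
      rw [Finset.sum_const, nsmul_eq_mul, mul_one, Finset.card_univ, Fintype.card_fun,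
        Fintype.card_fin, hN]
      push_cast
      rfl
    rw [e1, e2, hW1, hW2]
    nlinarith [mul_le_mul_of_nonneg_left hK hNpos.le]
  have habs : ∑ f : E → Fin D, |1 - W f| ≤ c * N := by
    have e1 : (∑ f : E → Fin D, |1 - W f|) ^ 2 ≤ (c * N) ^ 2 := by
      have e2 := sq_sum_le_card_mul_sum_sq (s := (univ : Finset (E → Fin D))) (f := fun f => |1 - W f|)
      have e3 : ((univ : Finset (E → Fin D)).card : ℝ) = N := by
        rw [Finset.card_univ, Fintype.card_fun, Fintype.card_fin, hN]
        push_cast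
        rfl
      rw [e3] at e2
      simp only [sq_abs] at e2
      calc (∑ f : E → Fin D, |1 - W f|) ^ 2 ≤ N * ∑ f : E → Fin D, (1 - W f) ^ 2 := e2
        _ ≤ N * (N * c ^ 2) := mul_le_mul_of_nonneg_left hvar hNpos.le
        _ = (c * N) ^ 2 := by ring
    exact le_of_sq_le_sq e1 (by positivity) 
  have hfin : ∑ f : E → Fin D, φ f - ∑ f : E → Fin D, φ f * W f ≤ c * N := by
    rw [← Finset.sum_sub_distrib]
    refine le_trans (Finset.sum_le_sum (fun f _ => ?_)) habs
    have e1 : φ f - φ f * W f = φ f * (1 - W f) := by ring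
    rw [e1]
    calc φ f * (1 - W f) ≤ φ f * |1 - W f| := mul_le_mul_of_nonneg_left (le_abs_self _) (h0 f)
      _ ≤ 1 * |1 - W f| := mul_le_mul_of_nonneg_right (h1 f) (abs_nonneg _)
      _ = |1 - W f| := one_mul _
  rw [hsum]
  refine mul_le_mul_of_nonneg_left ?_ hTpos.le
  linarith

end

end Pool.Agent.K6.H1.UG
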