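import Pool.Agent.Y630.TF.Transfer
import Pool.Agent.W906.MU.Final
import Pool.Agent.K6.H1.UG.Chi

/-! Unique games with hidden constraints: circuits with unreliable negations. -/

set_option autoImplicit false
set_option linter.unusedSectionVars false
set_option linter.unusedVariables false

namespace Pool.Agent.K6.H1.UG

open Finset Pool.Agent.Y630.NW Pool.Agent.Y630.TF Pool.Agent.W906.MU

/-- the inputs of the circuits on literals: the values of the literals and the constants -/
def litInputs (E : Type) : Set ((E × Bool → Bool) → ℝ) :=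
  {h | (∃ p, h = fun y => if y p = true then 1 else 0) ∨ ∃ c : ℝ, h = fun _ => c}

lemma prog_mono {E : Type} {l : List ((E × Bool → Bool) → ℝ)} (h : Prog (litInputs E) l) :
    ∀ f ∈ l, ∀ y y' : E × Bool → Bool, y ≤ y' → f y ≤ f y' := by
  induction h with
  | nil => simp
  | input _ hf ih =>
    intro g hg y y' hy
    rcases List.mem_cons.mp hg with rfl | hg
    · rcases hf with ⟨p, rfl⟩ | ⟨c, rfl⟩
      · have h1 := hy p
        simp only
        by_cases h2 : y p = true
        · have h3 : y' p = true := by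
            rw [h2] at h1
            exact Bool.eq_true_of_true_le h1
          rw [if_pos h2, if_pos h3]
        · rw [if_neg h2]
          split_ifs <;> norm_num
      · exact le_rfl
    · exact ih g hg y y' hy
  | gate _ hφ hf hg ih =>
    intro g' hg' y y' hy
    rcases List.mem_cons.mp hg' with rfl | hg'
    · exact hφ _ _ _ _ (ih _ hf y y' hy) (ih _ hg y y' hy)
    · exact ih g' hg' y y' hy

lemma prog_sub {E I : Type} {inp : Set (I → ℝ)} (σ : I → E × Bool → Bool)
    (hσ : ∀ p, (fun i => if σ i p = true then (1 : ℝ) else 0) ∈ inp)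
    (hconst : ∀ c : ℝ, (fun _ => c) ∈ inp) {l : List ((E × Bool → Bool) → ℝ)}
    (h : Prog (litInputs E) l) : Prog inp (l.map (fun f i => f (σ i))) := by
  induction h with
  | nil => exact Prog.nil
  | input _ hf ih =>
    rw [List.map_cons]
    refine Prog.input ih ?_
    rcases hf with ⟨p, rfl⟩ | ⟨c, rfl⟩
    · exact hσ p
    · exact hconst c
  | @gate l φ f g _ hφ hf hg ih =>
    rw [List.map_cons]
    exact Prog.gate (f := fun i => f (σ i)) (g := fun i => g (σ i)) ih hφ
      (List.mem_map.mpr ⟨f, hf, rfl⟩) (List.mem_map.mpr ⟨g, hg, rfl⟩)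

section

variable {N q K : ℕ}

/-- the tagged game: constraint `c` gets the tag `τ c` -/
def tagged (τ : Con N q → Fin K) (I : Game N q) : Finset (Con N q × Fin K) :=
  I.image fun c => (c, τ c)

lemma mem_tagged {τ : Con N q → Fin K} {I : Game N q} {e : Con N q × Fin K} :
    e ∈ tagged τ I ↔ e.1 ∈ I ∧ τ e.1 = e.2 := by
  classical
  unfold tagged
  rw [mem_image]
  constructor
  · rintro ⟨c, hc, rfl⟩
    exact ⟨hc, rfl⟩
  · rintro ⟨h1, h2⟩
    exact ⟨e.1, h1, Prod.ext rfl h2⟩

lemma tagged_inj (τ : Con N q → Fin K) : Function.Injective fun c : Con N q => (c, τ c) :=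
  fun a b h => (Prod.mk.inj h).1

lemma card_tagged (τ : Con N q → Fin K) (I : Game N q) : (tagged τ I).card = I.card :=
  Finset.card_image_of_injective _ (tagged_inj τ)

open Classical in
lemma card_tagged_filter (τ : Con N q → Fin K) (I : Game N q) (P : Con N q → Prop) :
    ((tagged τ I).filter fun e => P e.1).card = (I.filter P).card := by
  unfold tagged
  rw [Finset.filter_image, Finset.card_image_of_injective _ (tagged_inj τ)]

end

open Classical in
/-- literals -/
noncomputable def lits {E : Type} (J : Finset E) (Z : Set E) : E × Bool → Bool :=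
  fun p => decide (if p.2 = true then p.1 ∈ J else p.1 ∉ J ∧ p.1 ∉ Z)

open Classical in
lemma lits_host {N q K : ℕ} [NeZero K] (τ : Con N q → Fin K) (I : Game N q)
    (Z : Set (Con N q × Fin K)) :
    lits (tagged τ I) Z =
      lit (host (Function.Embedding.refl _) (fun _ => false) τ (fun c => decide (c ∈ I))) Z := by
  funext ⟨e, b⟩
  have h1 : host (Function.Embedding.refl _) (fun _ => false) τ (fun c => decide (c ∈ I)) e =
      decide (e ∈ tagged τ I) := by
    rw [Bool.eq_iff_iff, host_true, decide_eq_true_iff, mem_tagged]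
    constructor
    · rintro (h | ⟨c, h1, h2⟩)
      · exact absurd h (by simp)
      · have h3 : (c, τ c) = e := h2
        rw [← h3]
        exact ⟨by simpa using h1, rfl⟩
    · rintro ⟨h1, h2⟩
      exact Or.inr ⟨e.1, by simpa using h1, Prod.ext rfl h2⟩
  unfold lits lit
  rcases b with _ | _
  · simp only [Bool.false_eq_true, if_false]
    rw [h1]
    rw [Bool.eq_iff_iff]
    simp
  · simp only [if_true]
    rw [h1]

open Classical in
/-- the simulated literals: negated literals are constant -/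
noncomputable def sims {N q K : ℕ} (τ : Con N q → Fin K) (Z : Set (Con N q × Fin K))
    (I : Game N q) : (Con N q × Fin K) × Bool → Bool :=
  fun p => decide (if p.2 = true then p.1 ∈ tagged τ I else τ p.1.1 ≠ p.1.2 ∧ p.1 ∉ Z)

lemma rlit_sims {N q K : ℕ} [NeZero K] (τ : Con N q → Fin K) (I : Game N q) :
    rlit (Function.Embedding.refl _) (fun _ => false) τ (fun c => decide (c ∈ I)) =
      sims τ ∅ I := by
  classical
  funext ⟨e, b⟩
  unfold rlit sims
  rcases b with _ | _
  · simp only [Bool.false_eq_true, if_false, Set.mem_empty_iff_false, not_false_eq_true, and_true]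
    rw [Bool.eq_iff_iff, Bool.not_eq_true', decide_eq_true_iff]
    rw [← Bool.not_eq_true, host_true]
    constructor
    · intro h h1
      exact h (Or.inr ⟨e.1, rfl, Prod.ext rfl h1⟩)
    · rintro h (h1 | ⟨c, -, h2⟩)
      · exact absurd h1 (by simp)
      · apply h
        have h3 : (c, τ c) = e := h2
        rw [← h3]
  · simp only [if_true]
    rw [Bool.eq_iff_iff, host_true, decide_eq_true_iff, mem_tagged]
    constructor
    · rintro (h | ⟨c, h1, h2⟩)
      · exact absurd h (by simp)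
      · have h3 : (c, τ c) = e := h2
        rw [← h3]
        exact ⟨by simpa using h1, rfl⟩
    · rintro ⟨h1, h2⟩
      exact Or.inr ⟨e.1, by simpa using h1, Prod.ext rfl h2⟩

open Classical in
/-- with the true game, the faults at the places of the present constraints do not matter -/
lemma sims_eq {N q K : ℕ} (τ : Con N q → Fin K) (Z Z' : Set (Con N q × Fin K)) (I : Game N q)
    (h : ∀ e, e ∉ tagged τ I → (e ∈ Z' ↔ e ∈ Z ∨ τ e.1 = e.2)) :
    sims τ Z I = lits (tagged τ I) Z' := by
  funext ⟨e, b⟩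
  unfold sims lits
  rcases b with _ | _
  · simp only [Bool.false_eq_true, if_false]
    rw [decide_eq_decide]
    by_cases he : e ∈ tagged τ I
    · have h1 := (mem_tagged.mp he).2
      simp [he, h1]
    · rw [h e he]
      tauto
  · simp

lemma sims_inputs {N q K : ℕ} (τ : Con N q → Fin K) (Z : Set (Con N q × Fin K)) :
    ∀ p, (fun I => if sims τ Z I p = true then (1 : ℝ) else 0) ∈ inputs N q := by
  classical
  rintro ⟨e, b⟩
  rcases b with _ | _
  · right
    refine ⟨if τ e.1 ≠ e.2 ∧ e ∉ Z then 1 else 0, ?_⟩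
    funext I
    simp [sims]
  · by_cases h : τ e.1 = e.2
    · left
      refine ⟨e.1, ?_⟩
      funext I
      simp [sims, mem_tagged, h]
    · right
      refine ⟨0, ?_⟩
      funext I
      simp [sims, mem_tagged, h]

lemma sims_le_lits {N q K : ℕ} (τ : Con N q → Fin K) (Z : Set (Con N q × Fin K)) (I : Game N q) :
    sims τ Z I ≤ lits (tagged τ I) Z := by
  classical
  rintro ⟨e, b⟩
  rcases b with _ | _
  · simp only [sims, lits, Bool.false_eq_true, if_false]
    rw [Bool.le_iff_imp, decide_eq_true_iff, decide_eq_true_iff]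
    rintro ⟨h1, h2⟩
    refine ⟨fun h3 => h1 (mem_tagged.mp h3).2, h2⟩
  · simp [sims, lits]

/-- no constraint occurs with two tags -/
def Once {N q K : ℕ} (J : Finset (Con N q × Fin K)) : Prop :=
  ∀ e ∈ J, ∀ e' ∈ J, e.1 = e'.1 → e = e'

open Classical in
/-- NO instances -/
def NoT {N q K : ℕ} (m : ℕ) (δ : ℝ) (J : Finset (Con N q × Fin K)) : Prop :=
  Once J ∧ J.card = m ∧ ∀ f g, ((J.filter fun e => Sat f g e.1).card : ℝ) ≤ δ * m

open Classical in
/-- YES instances -/
def YesT {N q K : ℕ} (m : ℕ) (ε : ℝ) (J : Finset (Con N q × Fin K)) : Prop :=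
  Once J ∧ m ≤ J.card ∧ ∃ f g, ((J.filter fun e => ¬ Sat f g e.1).card : ℝ) ≤ ε * m

lemma once_tagged {N q K : ℕ} (τ : Con N q → Fin K) (I : Game N q) : Once (tagged τ I) := by
  intro e he e' he' h
  have h1 := (mem_tagged.mp he).2
  have h2 := (mem_tagged.mp he').2
  refine Prod.ext h ?_
  rw [← h1, ← h2, h]

lemma noT_tagged {N q K m : ℕ} {δ : ℝ} (τ : Con N q → Fin K) {I : Game N q} (h : NoI m δ I) :
    NoT m δ (tagged τ I) := by
  classical
  refine ⟨once_tagged τ I, by rw [card_tagged]; exact h.1, fun f g => ?_⟩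
  have h1 := h.2 f g
  have h2 := card_tagged_filter τ I (Sat f g)
  rw [← h2] at h1
  convert h1

lemma yesT_tagged {N q K m : ℕ} {ε : ℝ} (τ : Con N q → Fin K) {I : Game N q} (h : YesI m ε I) :
    YesT m ε (tagged τ I) := by
  classical
  obtain ⟨h1, f, g, h2⟩ := h
  refine ⟨once_tagged τ I, by rw [card_tagged]; exact h1, f, g, ?_⟩
  have h3 := card_tagged_filter τ I (fun e => ¬ Sat f g e)
  refine le_trans (le_of_eq ?_) h2
  congr 1
  convert h3

open Classical in
/-- the hidden circuits separate (few tags) -/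
theorem few {N q K D m : ℕ} (δ ε : ℝ) (hK : 0 < K) (hD : 0 < D)
    (hbad : (Fintype.card (Con N q) : ℝ) * (1 - 1 / (D : ℝ)) ^ K ≤ 1 / 40)
    {R : Type} [Fintype R] [Nonempty R] (l : R → List (((Con N q × Fin K) × Bool → Bool) → ℝ))
    (hl : ∀ ρ, Prog (litInputs (Con N q × Fin K)) (l ρ))
    (out : R → ((Con N q × Fin K) × Bool → Bool) → ℝ) (θ : R → ℝ) (hout : ∀ ρ, out ρ ∈ l ρ)
    (h1 : ∀ J : Finset (Con N q × Fin K), NoT m δ J →
      (3 / 4 : ℝ) * (Fintype.card R * (D : ℝ) ^ Fintype.card (Con N q × Fin K)) ≤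
      ({v : R × (Con N q × Fin K → Fin D) |
        θ v.1 ≤ out v.1 (lits J (Flt v.2))}.ncard : ℝ))
    (h2 : ∀ J : Finset (Con N q × Fin K), YesT m ε J →
      ({ρ : R | θ ρ ≤ out ρ (lits J ∅)}.ncard : ℝ) ≤ 1 / 3 * Fintype.card R) :
    ∃ l' : R × (Con N q → Fin K) → List (Game N q → ℝ), (∀ ω, Prog (inputs N q) (l' ω)) ∧
      (∀ ω, (l' ω).length = (l ω.1).length) ∧ Separates m δ ε l' := by
  have _ : NeZero K := ⟨hK.ne'⟩
  have hmono : ∀ (ρ : R) (u v : (Con N q × Fin K) × Bool → Bool), u ≤ v →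
      θ ρ ≤ out ρ u → θ ρ ≤ out ρ v :=
    fun ρ u v huv h => h.trans (prog_mono (hl ρ) _ (hout ρ) u v huv)
  refine ⟨fun ω => (l ω.1).map (fun f I => f (sims ω.2 ∅ I)), fun ω => ?_, fun ω => ?_, ?_⟩
  · exact prog_sub _ (sims_inputs ω.2 ∅) (fun c => Or.inr ⟨c, rfl⟩) (hl ω.1)
  · rw [List.length_map]
  refine ⟨fun ω I => out ω.1 (sims ω.2 ∅ I), fun ω => θ ω.1, fun ω => ?_, fun I hI => ?_,
    fun I hI => ?_⟩
  · exact List.mem_map.mpr ⟨out ω.1, hout ω.1, rfl⟩
  · have h3 := transfer_yes (Function.Embedding.refl (Con N q × Fin K)) (fun _ => false) hD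
      (fun ρ y => θ ρ ≤ out ρ y) hmono (7 / 10) (1 / 20)
      (by rw [Fintype.card_fin]; exact hbad.trans (by norm_num)) (fun c => decide (c ∈ I))
      (fun τ => by
        have h4 := h1 _ (noT_tagged τ hI)
        simp only [← lits_host]
        norm_num at h4 ⊢
        exact h4)
    simp only [rlit_sims] at h3
    have h4 : (7 / 10 : ℝ) * Fintype.card (R × (Con N q → Fin K)) ≤
        ((univ.filter fun ω : R × (Con N q → Fin K) =>
          θ ω.1 ≤ out ω.1 (sims ω.2 ∅ I)).card : ℝ) := by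
      refine le_trans ?_ (h3.trans (le_of_eq ?_))
      · refine mul_le_mul_of_nonneg_right (by norm_num) (Nat.cast_nonneg _)
      · rw [Set.ncard_eq_toFinset_card']
        congr 2
        ext ω
        simp
    have h5 : (2 : ℝ) * Fintype.card (R × (Con N q → Fin K)) ≤
        3 * ((univ.filter fun ω : R × (Con N q → Fin K) =>
          θ ω.1 ≤ out ω.1 (sims ω.2 ∅ I)).card : ℝ) := by
      have : (0 : ℝ) ≤ Fintype.card (R × (Con N q → Fin K)) := Nat.cast_nonneg _
      linarith
    exact_mod_cast h5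
  · have h3 := transfer_no (Function.Embedding.refl (Con N q × Fin K)) (fun _ => false)
      (fun ρ y => θ ρ ≤ out ρ y) hmono (1 / 3) (fun c => decide (c ∈ I))
      (fun τ => by
        have h4 := h2 _ (yesT_tagged τ hI)
        simp only [← lits_host]
        exact h4)
    simp only [rlit_sims] at h3
    have h4 : ((univ.filter fun ω : R × (Con N q → Fin K) =>
          θ ω.1 ≤ out ω.1 (sims ω.2 ∅ I)).card : ℝ) ≤
        1 / 3 * Fintype.card (R × (Con N q → Fin K)) := by
      refine le_trans (le_of_eq ?_) h3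
      rw [Set.ncard_eq_toFinset_card']
      congr 2
      ext ω
      simp
    have h5 := Finset.card_filter_add_card_filter_not
      (s := (univ : Finset (R × (Con N q → Fin K))))
      (p := fun ω => θ ω.1 ≤ out ω.1 (sims ω.2 ∅ I))
    rw [Finset.card_univ] at h5
    have h6 : (univ.filter fun ω : R × (Con N q → Fin K) =>
        ¬ θ ω.1 ≤ out ω.1 (sims ω.2 ∅ I)) =
        univ.filter fun ω : R × (Con N q → Fin K) => out ω.1 (sims ω.2 ∅ I) < θ ω.1 := by
      ext ω
      simp
    rw [h6] at h5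
    have h7 : ((univ.filter fun ω : R × (Con N q → Fin K) =>
          θ ω.1 ≤ out ω.1 (sims ω.2 ∅ I)).card : ℝ) +
        ((univ.filter fun ω : R × (Con N q → Fin K) =>
          out ω.1 (sims ω.2 ∅ I) < θ ω.1).card : ℝ) = Fintype.card (R × (Con N q → Fin K)) := by
      exact_mod_cast h5
    have h8 : (2 : ℝ) * Fintype.card (R × (Con N q → Fin K)) ≤
        3 * ((univ.filter fun ω : R × (Con N q → Fin K) =>
          out ω.1 (sims ω.2 ∅ I) < θ ω.1).card : ℝ) := by
      have : (0 : ℝ) ≤ Fintype.card (R × (Con N q → Fin K)) := Nat.cast_nonneg _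
      linarith
    exact_mod_cast h8


lemma ncard_prod3 {R T S : Type} [Fintype R] [Fintype T] [Fintype S] (P : R → T → S → Prop)
    [∀ r t s, Decidable (P r t s)] :
    ((univ.filter fun ω : R × T × S => P ω.1 ω.2.1 ω.2.2).card : ℝ) =
      ∑ r : R, ∑ t : T, ∑ s : S, (if P r t s then (1 : ℝ) else 0) := by
  classical
  rw [← Finset.sum_boole, Fintype.sum_prod_type]
  refine Finset.sum_congr rfl (fun r _ => ?_)
  rw [Fintype.sum_prod_type]

lemma ncard_prod2 {R S : Type} [Fintype R] [Fintype S] (P : R → S → Prop)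
    [∀ r s, Decidable (P r s)] :
    ({v : R × S | P v.1 v.2}.ncard : ℝ) = ∑ r : R, ∑ s : S, (if P r s then (1 : ℝ) else 0) := by
  classical
  rw [Set.ncard_eq_toFinset_card']
  have h1 : ({v : R × S | P v.1 v.2} : Set (R × S)).toFinset = univ.filter fun v => P v.1 v.2 := by
    ext v
    simp
  rw [h1, ← Finset.sum_boole, Fintype.sum_prod_type]

lemma pow_le_of {D K n a : ℕ} (hD : 0 < D) (han : a ≤ n) (hK0 : 0 < K)
    (hK : (150 : ℝ) * D * n ≤ K) :
    (1 + ((D : ℝ) - 1) / Fintype.card (Fin K)) ^ a ≤ 1 + (1 / 12 : ℝ) ^ 2 := by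
  rw [Fintype.card_fin]
  have hDR : (1 : ℝ) ≤ D := by exact_mod_cast hD
  have hKR : (0 : ℝ) < K := by exact_mod_cast hK0
  have h0 : 0 ≤ ((D : ℝ) - 1) / K := div_nonneg (by linarith) hKR.le
  have h1 : (1 + ((D : ℝ) - 1) / K) ^ a ≤ Real.exp (1 / 150) := by
    calc (1 + ((D : ℝ) - 1) / K) ^ a ≤ (1 + ((D : ℝ) - 1) / K) ^ n :=
          pow_le_pow_right₀ (by linarith) han
      _ ≤ Real.exp (((D : ℝ) - 1) / K) ^ n := by
          refine pow_le_pow_left₀ (by linarith) ?_ n
          rw [add_comm]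
          exact Real.add_one_le_exp _
      _ = Real.exp (n * (((D : ℝ) - 1) / K)) := by rw [← Real.exp_nat_mul]
      _ ≤ Real.exp (1 / 150) := by
          apply Real.exp_le_exp.mpr
          rw [mul_div_assoc', div_le_div_iff₀ hKR (by norm_num)]
          have : (0 : ℝ) ≤ n := Nat.cast_nonneg n
          nlinarith
  refine h1.trans ?_
  have h2 : (1 : ℝ) - 1 / 150 ≤ Real.exp (-(1 / 150)) := by
    have := Real.add_one_le_exp (-(1 / 150 : ℝ))
    linarith
  have h3 : Real.exp (1 / 150) * Real.exp (-(1 / 150)) = 1 := by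
    rw [← Real.exp_add]
    norm_num
  have h4 : 0 < Real.exp (1 / 150) := Real.exp_pos _
  nlinarith

lemma sum_split {X G : Type} [Fintype X] [DecidableEq X] [Fintype G] (p : X → Prop)
    [DecidablePred p] (g : (X → G) → ℝ) :
    ∑ τ : X → G, g τ = ∑ σ : {x // ¬ p x} → G, ∑ α : {x // p x} → G,
      g ((Equiv.piEquivPiSubtypeProd p (fun _ => G)).symm (α, σ)) := by
  rw [← Equiv.sum_comp (Equiv.piEquivPiSubtypeProd p (fun _ => G)).symm g,
    Fintype.sum_prod_type, Finset.sum_comm]

lemma card_split {X G : Type} [Fintype X] [DecidableEq X] [Fintype G] (p : X → Prop)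
    [DecidablePred p] :
    (Fintype.card (X → G) : ℝ) =
      Fintype.card ({x // ¬ p x} → G) * Fintype.card ({x // p x} → G) := by
  rw [Fintype.card_congr (Equiv.piEquivPiSubtypeProd p (fun _ => G)), Fintype.card_prod]
  push_cast
  ring

open Classical in
/-- adding faults at the places of the absent constraints -/
theorem hide_tagged {N q K D : ℕ} [NeZero K] [NeZero D] (I : Game N q)
    (hK : (150 : ℝ) * D * Fintype.card (Con N q) ≤ K)
    (Φ : Finset (Con N q × Fin K) → (Con N q × Fin K → Fin D) → Prop) :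
    (∑ τ : Con N q → Fin K, ∑ f : Con N q × Fin K → Fin D,
      (if Φ (tagged τ I) f then (1 : ℝ) else 0)) -
      1 / 12 * (Fintype.card (Con N q → Fin K) * (D : ℝ) ^ Fintype.card (Con N q × Fin K)) ≤
    ∑ τ : Con N q → Fin K, ∑ f : Con N q × Fin K → Fin D,
      (if Φ (tagged τ I) (fun e => if e.1 ∉ I ∧ τ e.1 = e.2 then 0 else f e) then (1 : ℝ) else 0) := by
  have hD0 : 0 < D := Nat.pos_of_ne_zero (NeZero.ne D)
  have hK0 : 0 < K := Nat.pos_of_ne_zero (NeZero.ne K)
  set A := {c : Con N q // c ∉ I} with hA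
  set B := {c : Con N q // ¬ c ∉ I} with hB
  let slot : A × Fin K ↪ Con N q × Fin K := ⟨fun p => (p.1.1, p.2), fun p p' h => by
    have h1 := Prod.mk.inj h
    exact Prod.ext (Subtype.ext h1.1) h1.2⟩
  let e : (Con N q → Fin K) ≃ (A → Fin K) × (B → Fin K) :=
    Equiv.piEquivPiSubtypeProd (fun c : Con N q => c ∉ I) (fun _ => Fin K)
  have hcong : ∀ (τ τ' : Con N q → Fin K), (∀ c ∈ I, τ c = τ' c) → tagged τ I = tagged τ' I := by
    intro τ τ' h
    ext x
    rw [mem_tagged, mem_tagged]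
    constructor
    · rintro ⟨h1, h2⟩
      exact ⟨h1, by rw [← h x.1 h1]; exact h2⟩
    · rintro ⟨h1, h2⟩
      exact ⟨h1, by rw [h x.1 h1]; exact h2⟩
  have hJ : ∀ (α α' : A → Fin K) (σ : B → Fin K),
      tagged (e.symm (α, σ)) I = tagged (e.symm (α', σ)) I := by
    intro α α' σ
    apply hcong
    intro c hc
    simp [e, Equiv.piEquivPiSubtypeProd, hc]
  have hz : ∀ (α : A → Fin K) (σ : B → Fin K) (f : Con N q × Fin K → Fin D),
      (fun x : Con N q × Fin K => if x.1 ∉ I ∧ (e.symm (α, σ)) x.1 = x.2 then 0 else f x) =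
      zero (plc slot α) f := by
    intro α σ f
    funext x
    unfold zero
    have h1 : x ∈ plc slot α ↔ x.1 ∉ I ∧ (e.symm (α, σ)) x.1 = x.2 := by
      rw [mem_plc]
      constructor
      · rintro ⟨a, rfl⟩
        refine ⟨a.2, ?_⟩
        show (e.symm (α, σ)) a.1 = α a
        simp [e, Equiv.piEquivPiSubtypeProd, a.2]
      · rintro ⟨h1, h2⟩
        refine ⟨⟨x.1, h1⟩, ?_⟩
        refine Prod.ext rfl ?_
        show α ⟨x.1, h1⟩ = x.2
        rw [← h2]
        simp [e, Equiv.piEquivPiSubtypeProd, h1]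
    by_cases hx : x ∈ plc slot α
    · rw [if_pos (h1.mp hx), if_pos hx]
    · rw [if_neg (fun h => hx (h1.mpr h)), if_neg hx]
  have hmain : ∀ σ : B → Fin K,
      (∑ α : A → Fin K, ∑ f : Con N q × Fin K → Fin D,
        (if Φ (tagged (e.symm (α, σ)) I) f then (1 : ℝ) else 0)) -
        1 / 12 * (Fintype.card (A → Fin K) * (D : ℝ) ^ Fintype.card (Con N q × Fin K)) ≤
      ∑ α : A → Fin K, ∑ f : Con N q × Fin K → Fin D,
        (if Φ (tagged (e.symm (α, σ)) I) (zero (plc slot α) f) then (1 : ℝ) else 0) := by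
    intro σ
    let α0 : A → Fin K := fun _ => 0
    have h1 := hide_chi (D := D) slot
      (fun f => if Φ (tagged (e.symm (α0, σ)) I) f then (1 : ℝ) else 0)
      (fun f => by split_ifs <;> norm_num) (fun f => by split_ifs <;> norm_num) (1 / 12)
      (by norm_num) (pow_le_of hD0 (Fintype.card_subtype_le _) hK0 hK)
    have h2 : ∀ α : A → Fin K, tagged (e.symm (α, σ)) I = tagged (e.symm (α0, σ)) I :=
      fun α => hJ α α0 σ
    simp only [h2]
    rw [Finset.sum_const, nsmul_eq_mul, Finset.card_univ]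
    refine le_trans (le_of_eq ?_) h1
    ring
  have hsum : ∀ g : (Con N q → Fin K) → ℝ, ∑ τ : Con N q → Fin K, g τ =
      ∑ σ : B → Fin K, ∑ α : A → Fin K, g (e.symm (α, σ)) :=
    fun g => sum_split (fun c : Con N q => c ∉ I) g
  rw [hsum, hsum (fun τ => ∑ f : Con N q × Fin K → Fin D,
      (if Φ (tagged τ I) (fun e => if e.1 ∉ I ∧ τ e.1 = e.2 then 0 else f e) then (1 : ℝ) else 0))]
  have h3 := Finset.sum_le_sum (fun σ (_ : σ ∈ (univ : Finset (B → Fin K))) => hmain σ)
  rw [Finset.sum_sub_distrib, Finset.sum_const, nsmul_eq_mul, Finset.card_univ] at h3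
  have h4 : (Fintype.card (Con N q → Fin K) : ℝ) =
      Fintype.card (B → Fin K) * Fintype.card (A → Fin K) :=
    card_split (fun c : Con N q => c ∉ I)
  rw [h4]
  simp only [hz]
  refine le_trans (le_of_eq ?_) h3
  ring

open Classical in
/-- the hidden circuits separate (many tags, all instances under faults) -/
theorem many {N q K D m : ℕ} (δ ε : ℝ) (hK0 : 0 < K) (hD : 0 < D)
    (hK : (150 : ℝ) * D * Fintype.card (Con N q) ≤ K)
    {R : Type} [Fintype R] [Nonempty R] (l : R → List (((Con N q × Fin K) × Bool → Bool) → ℝ))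
    (hl : ∀ ρ, Prog (litInputs (Con N q × Fin K)) (l ρ))
    (out : R → ((Con N q × Fin K) × Bool → Bool) → ℝ) (θ : R → ℝ) (hout : ∀ ρ, out ρ ∈ l ρ)
    (h1 : ∀ J : Finset (Con N q × Fin K), NoT m δ J →
      (3 / 4 : ℝ) * (Fintype.card R * (D : ℝ) ^ Fintype.card (Con N q × Fin K)) ≤
      ({v : R × (Con N q × Fin K → Fin D) |
        θ v.1 ≤ out v.1 (lits J (Flt v.2))}.ncard : ℝ))
    (h2 : ∀ J : Finset (Con N q × Fin K), YesT m ε J →
      ({v : R × (Con N q × Fin K → Fin D) |
        θ v.1 ≤ out v.1 (lits J (Flt v.2))}.ncard : ℝ) ≤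
      (1 / 3 : ℝ) * (Fintype.card R * (D : ℝ) ^ Fintype.card (Con N q × Fin K))) :
    ∃ l' : R × (Con N q → Fin K) × (Con N q × Fin K → Fin D) → List (Game N q → ℝ),
      (∀ ω, Prog (inputs N q) (l' ω)) ∧
      (∀ ω, (l' ω).length = (l ω.1).length) ∧ Separates m δ ε l' := by
  have _ : NeZero K := ⟨hK0.ne'⟩
  have _ : NeZero D := ⟨hD.ne'⟩
  have hmono : ∀ (ρ : R) (u v : (Con N q × Fin K) × Bool → Bool), u ≤ v →
      θ ρ ≤ out ρ u → θ ρ ≤ out ρ v :=
    fun ρ u v huv h => h.trans (prog_mono (hl ρ) _ (hout ρ) u v huv)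
  have htot : (Fintype.card (R × (Con N q → Fin K) × (Con N q × Fin K → Fin D)) : ℝ) =
      Fintype.card R * (Fintype.card (Con N q → Fin K) *
        (D : ℝ) ^ Fintype.card (Con N q × Fin K)) := by
    rw [Fintype.card_prod, Fintype.card_prod, Fintype.card_fun (α := Con N q × Fin K),
      Fintype.card_fin]
    push_cast
    ring
  refine ⟨fun ω => (l ω.1).map (fun f I => f (sims ω.2.1 (Flt ω.2.2) I)), fun ω => ?_,
    fun ω => ?_, ?_⟩
  · exact prog_sub _ (sims_inputs ω.2.1 _) (fun c => Or.inr ⟨c, rfl⟩) (hl ω.1)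
  · rw [List.length_map]
  refine ⟨fun ω I => out ω.1 (sims ω.2.1 (Flt ω.2.2) I), fun ω => θ ω.1, fun ω => ?_,
    fun I hI => ?_, fun I hI => ?_⟩
  · exact List.mem_map.mpr ⟨out ω.1, hout ω.1, rfl⟩
  · have h3 : ∀ τ : Con N q → Fin K,
        (3 / 4 : ℝ) * (Fintype.card R * (D : ℝ) ^ Fintype.card (Con N q × Fin K)) ≤
        ∑ ρ : R, ∑ f : Con N q × Fin K → Fin D,
          (if θ ρ ≤ out ρ (lits (tagged τ I) (Flt f)) then (1 : ℝ) else 0) := by
      intro τ
      refine (h1 _ (noT_tagged τ hI)).trans (le_of_eq ?_)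
      exact ncard_prod2 (fun ρ f => θ ρ ≤ out ρ (lits (tagged τ I) (Flt f)))
    have h4 := Finset.sum_le_sum (fun τ (_ : τ ∈ (univ : Finset (Con N q → Fin K))) => h3 τ)
    rw [Finset.sum_const, nsmul_eq_mul, Finset.card_univ, Finset.sum_comm] at h4
    have h5 : ∀ ρ : R, (∑ τ : Con N q → Fin K, ∑ f : Con N q × Fin K → Fin D,
        (if θ ρ ≤ out ρ (lits (tagged τ I) (Flt f)) then (1 : ℝ) else 0)) -
        1 / 12 * (Fintype.card (Con N q → Fin K) * (D : ℝ) ^ Fintype.card (Con N q × Fin K)) ≤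
        ∑ τ : Con N q → Fin K, ∑ f : Con N q × Fin K → Fin D,
          (if θ ρ ≤ out ρ (sims τ (Flt f) I) then (1 : ℝ) else 0) := by
      intro ρ
      have h6 := hide_tagged I hK (fun J f => θ ρ ≤ out ρ (lits J (Flt f)))
      refine h6.trans (le_of_eq ?_)
      refine Finset.sum_congr rfl (fun τ _ => Finset.sum_congr rfl (fun f _ => ?_))
      rw [sims_eq τ (Flt f) (Flt fun e => if e.1 ∉ I ∧ τ e.1 = e.2 then 0 else f e) I]
      intro e he
      unfold Flt
      simp only [Set.mem_ofPred_eq]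
      rw [mem_tagged] at he
      by_cases h7 : τ e.1 = e.2
      · have h8 : e.1 ∉ I := fun h9 => he ⟨h9, h7⟩
        simp [h7, h8]
      · simp [h7]
    have h6 := Finset.sum_le_sum (fun ρ (_ : ρ ∈ (univ : Finset R)) => h5 ρ)
    rw [Finset.sum_sub_distrib, Finset.sum_const, nsmul_eq_mul, Finset.card_univ] at h6
    rw [← ncard_prod3 (fun ρ τ f => θ ρ ≤ out ρ (sims τ (Flt f) I))] at h6
    have h7 : (2 : ℝ) * Fintype.card (R × (Con N q → Fin K) × (Con N q × Fin K → Fin D)) ≤
        3 * ((univ.filter fun ω : R × (Con N q → Fin K) × (Con N q × Fin K → Fin D) =>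
          θ ω.1 ≤ out ω.1 (sims ω.2.1 (Flt ω.2.2) I)).card : ℝ) := by
      rw [htot]
      have e1 : (Fintype.card (Con N q → Fin K) : ℝ) *
          ((3 / 4 : ℝ) * (Fintype.card R * (D : ℝ) ^ Fintype.card (Con N q × Fin K))) =
          3 / 4 * (Fintype.card R * (Fintype.card (Con N q → Fin K) *
            (D : ℝ) ^ Fintype.card (Con N q × Fin K))) := by ring
      have e2 : (Fintype.card R : ℝ) * (1 / 12 * (Fintype.card (Con N q → Fin K) *
            (D : ℝ) ^ Fintype.card (Con N q × Fin K))) =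
          1 / 12 * (Fintype.card R * (Fintype.card (Con N q → Fin K) *
            (D : ℝ) ^ Fintype.card (Con N q × Fin K))) := by ring
      rw [e1] at h4
      rw [e2] at h6
      linarith
    exact_mod_cast h7
  · have h3 : ∀ τ : Con N q → Fin K,
        ∑ ρ : R, ∑ f : Con N q × Fin K → Fin D,
          (if θ ρ ≤ out ρ (lits (tagged τ I) (Flt f)) then (1 : ℝ) else 0) ≤
        (1 / 3 : ℝ) * (Fintype.card R * (D : ℝ) ^ Fintype.card (Con N q × Fin K)) := by
      intro τ
      refine le_trans (le_of_eq ?_) (h2 _ (yesT_tagged τ hI))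
      exact (ncard_prod2 (fun ρ f => θ ρ ≤ out ρ (lits (tagged τ I) (Flt f)))).symm
    have h4 := Finset.sum_le_sum (fun τ (_ : τ ∈ (univ : Finset (Con N q → Fin K))) => h3 τ)
    rw [Finset.sum_const, nsmul_eq_mul, Finset.card_univ, Finset.sum_comm] at h4
    have h5 : ((univ.filter fun ω : R × (Con N q → Fin K) × (Con N q × Fin K → Fin D) =>
          θ ω.1 ≤ out ω.1 (sims ω.2.1 (Flt ω.2.2) I)).card : ℝ) ≤
        1 / 3 * Fintype.card (R × (Con N q → Fin K) × (Con N q × Fin K → Fin D)) := by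
      rw [ncard_prod3 (fun ρ τ f => θ ρ ≤ out ρ (sims τ (Flt f) I)), htot]
      refine le_trans (Finset.sum_le_sum (fun ρ _ => Finset.sum_le_sum (fun τ _ =>
        Finset.sum_le_sum (fun f _ => ?_)))) (h4.trans (le_of_eq (by ring)))
      by_cases h6 : θ ρ ≤ out ρ (sims τ (Flt f) I)
      · rw [if_pos h6, if_pos (hmono ρ _ _ (sims_le_lits τ (Flt f) I) h6)]
      · rw [if_neg h6]
        split_ifs <;> norm_num
    have h6 := Finset.card_filter_add_card_filter_not
      (s := (univ : Finset (R × (Con N q → Fin K) × (Con N q × Fin K → Fin D))))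
      (p := fun ω => θ ω.1 ≤ out ω.1 (sims ω.2.1 (Flt ω.2.2) I))
    rw [Finset.card_univ] at h6
    have h7 : (univ.filter fun ω : R × (Con N q → Fin K) × (Con N q × Fin K → Fin D) =>
        ¬ θ ω.1 ≤ out ω.1 (sims ω.2.1 (Flt ω.2.2) I)) =
        univ.filter fun ω : R × (Con N q → Fin K) × (Con N q × Fin K → Fin D) =>
          out ω.1 (sims ω.2.1 (Flt ω.2.2) I) < θ ω.1 := by
      ext ω
      simp
    rw [h7] at h6
    have h8 : ((univ.filter fun ω : R × (Con N q → Fin K) × (Con N q × Fin K → Fin D) =>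
          θ ω.1 ≤ out ω.1 (sims ω.2.1 (Flt ω.2.2) I)).card : ℝ) +
        ((univ.filter fun ω : R × (Con N q → Fin K) × (Con N q × Fin K → Fin D) =>
          out ω.1 (sims ω.2.1 (Flt ω.2.2) I) < θ ω.1).card : ℝ) =
        Fintype.card (R × (Con N q → Fin K) × (Con N q × Fin K → Fin D)) := by
      exact_mod_cast h6
    have h9 : (2 : ℝ) * Fintype.card (R × (Con N q → Fin K) × (Con N q × Fin K → Fin D)) ≤
        3 * ((univ.filter fun ω : R × (Con N q → Fin K) × (Con N q × Fin K → Fin D) =>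
          out ω.1 (sims ω.2.1 (Flt ω.2.2) I) < θ ω.1).card : ℝ) := by
      linarith
    exact_mod_cast h9

end Pool.Agent.K6.H1.UG
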