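import Pool.Agent.K6.H1.UG.Chi

/-! Random places hidden in random noise: a second moment bound for arbitrary noise. -/

set_option autoImplicit false
set_option linter.unusedSectionVars false
set_option linter.unusedVariables false

namespace Pool.Agent.K6.H1.UG

open Finset

section

variable {E : Type} [Fintype E] [DecidableEq E] {D : ℕ}

/-- the noise is changed by `s` on `B` -/
def upd (s : Fin D → Fin D) (B : Finset E) (f : E → Fin D) : E → Fin D :=
  fun e => if e ∈ B then s (f e) else f e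

/-- the number of preimages -/
def pre (s : Fin D → Fin D) (k : Fin D) : ℕ := (univ.filter fun j => s j = k).card

lemma sum_pre (s : Fin D → Fin D) : ∑ k : Fin D, (pre s k : ℝ) = D := by
  classical
  have h := Finset.card_eq_sum_card_fiberwise (s := (univ : Finset (Fin D)))
    (t := (univ : Finset (Fin D))) (f := s) (fun _ _ => mem_univ _)
  rw [Finset.card_univ, Fintype.card_fin] at h
  have h2 : (D : ℝ) = ((∑ k : Fin D, pre s k : ℕ) : ℝ) := by
    unfold pre
    exact_mod_cast h
  rw [h2]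
  push_cast
  rfl

lemma sum_pre_sq (s : Fin D → Fin D) : ∑ k : Fin D, (pre s k : ℝ) ^ 2 ≤ D * D := by
  classical
  have h1 : ∀ k : Fin D, (pre s k : ℝ) ^ 2 ≤ D * pre s k := by
    intro k
    have h2 : (pre s k : ℝ) ≤ D := by
      have : pre s k ≤ D := by
        unfold pre
        refine (Finset.card_le_univ _).trans ?_
        rw [Fintype.card_fin]
      exact_mod_cast this
    have h3 : (0 : ℝ) ≤ pre s k := Nat.cast_nonneg _
    nlinarith
  calc ∑ k : Fin D, (pre s k : ℝ) ^ 2 ≤ ∑ k : Fin D, (D : ℝ) * pre s k :=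
        Finset.sum_le_sum (fun k _ => h1 k)
    _ = D * D := by rw [← Finset.mul_sum, sum_pre]

lemma sum_upd (s : Fin D → Fin D) (B : Finset E) (φ : (E → Fin D) → ℝ) :
    ∑ f : E → Fin D, φ (upd s B f) = ∑ g : E → Fin D, φ g * ∏ e ∈ B, (pre s (g e) : ℝ) := by
  classical
  rw [← Finset.sum_fiberwise_of_maps_to (s := univ) (t := univ) (g := upd s B)
    (fun f _ => mem_univ _)]
  refine Finset.sum_congr rfl (fun g _ => ?_)
  have h1 : ∑ f ∈ univ.filter (fun f : E → Fin D => upd s B f = g), φ (upd s B f) =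
      ∑ f ∈ univ.filter (fun f : E → Fin D => upd s B f = g), φ g := by
    refine Finset.sum_congr rfl (fun f hf => ?_)
    rw [(mem_filter.mp hf).2]
  rw [h1, Finset.sum_const, nsmul_eq_mul, mul_comm]
  congr 1
  have h2 : (univ.filter fun f : E → Fin D => upd s B f = g) =
      Fintype.piFinset (fun e : E => if e ∈ B then (univ.filter fun j => s j = g e) else {g e}) := by
    ext f
    simp only [mem_filter, mem_univ, true_and, Fintype.mem_piFinset]
    constructor
    · intro h e
      by_cases he : e ∈ B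
      · rw [if_pos he, mem_filter, ← h]
        simp [upd, he]
      · rw [if_neg he, mem_singleton, ← h]
        simp [upd, he]
    · intro h
      funext e
      have h3 := h e
      by_cases he : e ∈ B
      · rw [if_pos he, mem_filter] at h3
        simp only [upd, he, if_true]
        exact h3.2
      · rw [if_neg he, mem_singleton] at h3
        simp only [upd, he, if_false]
        exact h3
  rw [h2, Fintype.card_piFinset]
  have h3 : ∀ e : E, (if e ∈ B then (univ.filter fun j => s j = g e) else {g e} :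
      Finset (Fin D)).card = if e ∈ B then pre s (g e) else 1 := by
    intro e
    split_ifs
    · rfl
    · simp
  rw [Finset.prod_congr rfl (fun e _ => h3 e), Finset.prod_ite_mem, Finset.univ_inter]
  push_cast
  rfl

lemma sum_prod_pre (s : Fin D → Fin D) (B : Finset E) :
    ∑ g : E → Fin D, ∏ e ∈ B, (pre s (g e) : ℝ) = (D : ℝ) ^ Fintype.card E := by
  have h := sum_upd s B (fun _ => (1 : ℝ))
  simp only [one_mul] at h
  rw [← h, Finset.sum_const, nsmul_eq_mul, mul_one, Finset.card_univ, Fintype.card_fun,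
    Fintype.card_fin]
  push_cast
  rfl

lemma sum_prod_pre2 (s : Fin D → Fin D) (B B' : Finset E) :
    ∑ g : E → Fin D, (∏ e ∈ B, (pre s (g e) : ℝ)) * ∏ e ∈ B', (pre s (g e) : ℝ) ≤
      (D : ℝ) ^ Fintype.card E * (D : ℝ) ^ (B ∩ B').card := by
  classical
  have h1 : ∀ g : E → Fin D, (∏ e ∈ B, (pre s (g e) : ℝ)) * ∏ e ∈ B', (pre s (g e) : ℝ) =
      ∏ e : E, ((if e ∈ B then (pre s (g e) : ℝ) else 1) *
        (if e ∈ B' then (pre s (g e) : ℝ) else 1)) := by
    intro g
    rw [Finset.prod_mul_distrib, Finset.prod_ite_mem, Finset.prod_ite_mem, Finset.univ_inter,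
      Finset.univ_inter]
  rw [Finset.sum_congr rfl (fun g _ => h1 g)]
  have h2 := Finset.prod_univ_sum (fun _ : E => (univ : Finset (Fin D)))
    (fun e k => ((if e ∈ B then (pre s k : ℝ) else 1) * (if e ∈ B' then (pre s k : ℝ) else 1)))
  rw [Fintype.piFinset_univ] at h2
  rw [← h2]
  have h3 : ∀ e : E, ∑ k : Fin D, ((if e ∈ B then (pre s k : ℝ) else 1) *
      (if e ∈ B' then (pre s k : ℝ) else 1)) ≤ D * (if e ∈ B ∩ B' then (D : ℝ) else 1) := by
    intro e
    by_cases hB : e ∈ B
    · by_cases hB' : e ∈ B'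
      · simp only [hB, hB', if_true, mem_inter, and_self]
        refine le_trans (le_of_eq ?_) (sum_pre_sq s)
        exact Finset.sum_congr rfl (fun k _ => by ring)
      · simp only [hB, hB', if_true, if_false, mem_inter, and_false, mul_one]
        exact le_of_eq (sum_pre s)
    · by_cases hB' : e ∈ B'
      · simp only [hB, hB', if_true, if_false, mem_inter, false_and, one_mul, mul_one]
        exact le_of_eq (sum_pre s)
      · simp [hB, hB']
  calc ∏ e : E, ∑ k : Fin D, ((if e ∈ B then (pre s k : ℝ) else 1) *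
        (if e ∈ B' then (pre s k : ℝ) else 1)) ≤
        ∏ e : E, ((D : ℝ) * (if e ∈ B ∩ B' then (D : ℝ) else 1)) := by
        refine Finset.prod_le_prod (fun e _ => ?_) (fun e _ => h3 e)
        refine Finset.sum_nonneg (fun k _ => mul_nonneg ?_ ?_)
        · split_ifs <;> positivity
        · split_ifs <;> positivity
    _ = (D : ℝ) ^ Fintype.card E * (D : ℝ) ^ (B ∩ B').card := by
        rw [Finset.prod_mul_distrib, Finset.prod_const, Finset.card_univ, Finset.prod_ite_mem,
          Finset.univ_inter, Finset.prod_const]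

variable {A G : Type} [Fintype A] [DecidableEq A] [Fintype G] [DecidableEq G] [NeZero D]

/-- Random places can be changed: the acceptance probability changes by at most `c`. -/
theorem hide_noise (slot : A × G ↪ E) [Nonempty G] (s : Fin D → Fin D) (φ : (E → Fin D) → ℝ)
    (h0 : ∀ f, 0 ≤ φ f) (h1 : ∀ f, φ f ≤ 1) (c : ℝ) (hc : 0 ≤ c)
    (hK : (1 + ((D : ℝ) - 1) / Fintype.card G) ^ Fintype.card A ≤ 1 + c ^ 2) :
    |∑ τ : A → G, ∑ f : E → Fin D, φ (upd s (plc slot τ) f) -
      (Fintype.card (A → G) : ℝ) * ∑ f : E → Fin D, φ f| ≤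
      Fintype.card (A → G) * (c * (D : ℝ) ^ Fintype.card E) := by
  classical
  set N : ℝ := (D : ℝ) ^ Fintype.card E with hN
  set T : ℝ := (Fintype.card (A → G) : ℝ) with hT
  set a : ℕ := Fintype.card A with ha
  have hDpos : (0 : ℝ) < D := by exact_mod_cast Nat.pos_of_ne_zero (NeZero.ne D)
  have hGpos : (0 : ℝ) < Fintype.card G := by exact_mod_cast Fintype.card_pos
  have hNpos : 0 < N := by positivity
  have hTpos : 0 < T := by
    rw [hT]
    exact_mod_cast Fintype.card_pos
  have hTG : T = (Fintype.card G : ℝ) ^ a := by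
    rw [hT, Fintype.card_fun]
    push_cast
    rfl
  set W : (E → Fin D) → ℝ := fun f =>
    1 / T * ∑ τ : A → G, ∏ e ∈ plc slot τ, (pre s (f e) : ℝ) with hW
  have hsum : ∑ τ : A → G, ∑ f : E → Fin D, φ (upd s (plc slot τ) f) =
      T * ∑ f : E → Fin D, φ f * W f := by
    rw [Finset.sum_congr rfl (fun τ _ => sum_upd s (plc slot τ) φ), Finset.sum_comm,
      Finset.mul_sum]
    refine Finset.sum_congr rfl (fun f _ => ?_)
    rw [hW]
    simp only
    rw [← Finset.mul_sum]
    field_simp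
  have hcardN : ((univ : Finset (E → Fin D)).card : ℝ) = N := by
    rw [Finset.card_univ, Fintype.card_fun, Fintype.card_fin, hN]
    push_cast
    rfl
  have hW1 : ∑ f : E → Fin D, W f = N := by
    rw [hW]
    simp only
    rw [← Finset.mul_sum, Finset.sum_comm,
      Finset.sum_congr rfl (fun τ _ => sum_prod_pre s (plc slot τ)), Finset.sum_const,
      nsmul_eq_mul, Finset.card_univ, ← hT, ← hN]
    field_simp
  have hW2 : ∑ f : E → Fin D, W f ^ 2 ≤ N * (1 + ((D : ℝ) - 1) / Fintype.card G) ^ a := by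
    have e1 : ∀ f : E → Fin D, W f ^ 2 = (1 / T) ^ 2 * ∑ τ : A → G, ∑ τ' : A → G,
        (∏ e ∈ plc slot τ, (pre s (f e) : ℝ)) * ∏ e ∈ plc slot τ', (pre s (f e) : ℝ) := by
      intro f
      rw [hW]
      simp only
      rw [mul_pow, sq (∑ τ : A → G, _), Finset.sum_mul_sum]
    rw [Finset.sum_congr rfl (fun f _ => e1 f), ← Finset.mul_sum, Finset.sum_comm]
    have e3 : ∀ τ : A → G, ∑ f : E → Fin D, ∑ τ' : A → G,
        (∏ e ∈ plc slot τ, (pre s (f e) : ℝ)) * ∏ e ∈ plc slot τ', (pre s (f e) : ℝ) ≤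
        ∑ τ' : A → G, N * (D : ℝ) ^ (univ.filter fun x => τ x = τ' x).card := by
      intro τ
      rw [Finset.sum_comm]
      refine Finset.sum_le_sum (fun τ' _ => ?_)
      rw [← card_inter_plc slot τ τ']
      exact sum_prod_pre2 s _ _
    have e4 : ∑ τ : A → G, ∑ τ' : A → G,
        N * (D : ℝ) ^ (univ.filter fun x => τ x = τ' x).card =
        N * ∑ τ : A → G, ∑ τ' : A → G, (D : ℝ) ^ (univ.filter fun x => τ x = τ' x).card := by
      rw [Finset.mul_sum]
      refine Finset.sum_congr rfl (fun τ _ => ?_)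
      rw [Finset.mul_sum]
    have e6 := Finset.sum_le_sum (fun τ (_ : τ ∈ (univ : Finset (A → G))) => e3 τ)
    rw [e4, sum_agree (D := D) (A := A) (G := G)] at e6
    have e5 : ((Fintype.card G : ℝ) ^ 2 + Fintype.card G * ((D : ℝ) - 1)) =
        (Fintype.card G : ℝ) ^ 2 * (1 + ((D : ℝ) - 1) / Fintype.card G) := by
      field_simp
    rw [e5, mul_pow, ← ha] at e6
    refine (mul_le_mul_of_nonneg_left e6 (by positivity)).trans (le_of_eq ?_)
    rw [hTG]
    field_simp
    ring
  -- the variance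
  have hvar : ∑ f : E → Fin D, (1 - W f) ^ 2 ≤ N * c ^ 2 := by
    have e1 : ∑ f : E → Fin D, (1 - W f) ^ 2 = ∑ f : E → Fin D, (1 : ℝ) - 2 * ∑ f : E → Fin D, W f +
        ∑ f : E → Fin D, W f ^ 2 := by
      rw [Finset.mul_sum, ← Finset.sum_sub_distrib, ← Finset.sum_add_distrib]
      exact Finset.sum_congr rfl (fun f _ => by ring)
    have e2 : ∑ f : E → Fin D, (1 : ℝ) = N := by
      rw [Finset.sum_const, nsmul_eq_mul, mul_one, hcardN]
    rw [e1, e2, hW1]
    nlinarith [mul_le_mul_of_nonneg_left hK hNpos.le, hW2]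
  have habs : ∑ f : E → Fin D, |1 - W f| ≤ c * N := by
    have e1 : (∑ f : E → Fin D, |1 - W f|) ^ 2 ≤ (c * N) ^ 2 := by
      have e2 := sq_sum_le_card_mul_sum_sq (s := (univ : Finset (E → Fin D))) (f := fun f => |1 - W f|)
      rw [hcardN] at e2
      simp only [sq_abs] at e2
      calc (∑ f : E → Fin D, |1 - W f|) ^ 2 ≤ N * ∑ f : E → Fin D, (1 - W f) ^ 2 := e2
        _ ≤ N * (N * c ^ 2) := mul_le_mul_of_nonneg_left hvar hNpos.le
        _ = (c * N) ^ 2 := by ring
    exact le_of_sq_le_sq e1 (by positivity)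
  have hfin : |∑ f : E → Fin D, φ f * W f - ∑ f : E → Fin D, φ f| ≤ c * N := by
    rw [← Finset.sum_sub_distrib]
    refine (Finset.abs_sum_le_sum_abs _ _).trans (le_trans (Finset.sum_le_sum (fun f _ => ?_)) habs)
    have e1 : φ f * W f - φ f = -(φ f * (1 - W f)) := by ring
    rw [e1, abs_neg, abs_mul, abs_of_nonneg (h0 f)]
    calc φ f * |1 - W f| ≤ 1 * |1 - W f| := mul_le_mul_of_nonneg_right (h1 f) (abs_nonneg _)
      _ = |1 - W f| := one_mul _
  rw [hsum, ← mul_sub, abs_mul, abs_of_pos hTpos]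
  exact mul_le_mul_of_nonneg_left hfin hTpos.le

end

lemma sum_splitp {X G : Type} [Fintype X] [DecidableEq X] [Fintype G] (p : X → Prop)
    [DecidablePred p] (g : (X → G) → ℝ) :
    ∑ τ : X → G, g τ = ∑ σ : {x // ¬ p x} → G, ∑ α : {x // p x} → G,
      g ((Equiv.piEquivPiSubtypeProd p (fun _ => G)).symm (α, σ)) := by
  rw [← Equiv.sum_comp (Equiv.piEquivPiSubtypeProd p (fun _ => G)).symm g,
    Fintype.sum_prod_type, Finset.sum_comm]

lemma card_splitp {X G : Type} [Fintype X] [DecidableEq X] [Fintype G] (p : X → Prop)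
    [DecidablePred p] :
    (Fintype.card (X → G) : ℝ) =
      Fintype.card ({x // ¬ p x} → G) * Fintype.card ({x // p x} → G) := by
  rw [Fintype.card_congr (Equiv.piEquivPiSubtypeProd p (fun _ => G)), Fintype.card_prod]
  push_cast
  ring

section

variable {X : Type} [Fintype X] [DecidableEq X] {K D : ℕ}

/-- the tagged set: the element `c` gets the tag `τ c` -/
def tag (τ : X → Fin K) (I : Finset X) : Finset (X × Fin K) := I.image fun c => (c, τ c)

lemma mem_tag {τ : X → Fin K} {I : Finset X} {e : X × Fin K} :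
    e ∈ tag τ I ↔ e.1 ∈ I ∧ τ e.1 = e.2 := by
  unfold tag
  rw [mem_image]
  constructor
  · rintro ⟨c, hc, rfl⟩
    exact ⟨hc, rfl⟩
  · rintro ⟨h1, h2⟩
    exact ⟨e.1, h1, Prod.ext rfl h2⟩

lemma tag_inj (τ : X → Fin K) : Function.Injective fun c : X => (c, τ c) :=
  fun a b h => (Prod.mk.inj h).1

lemma card_tag (τ : X → Fin K) (I : Finset X) : (tag τ I).card = I.card :=
  Finset.card_image_of_injective _ (tag_inj τ)

lemma card_tag_filter (τ : X → Fin K) (I : Finset X) (P : X → Prop) [DecidablePred P] :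
    ((tag τ I).filter fun e => P e.1).card = (I.filter P).card := by
  unfold tag
  rw [Finset.filter_image, Finset.card_image_of_injective _ (tag_inj τ)]

/-- the literals with noisy negations -/
def view (A : Fin D → Bool → Bool) (J : Finset (X × Fin K)) (f : X × Fin K → Fin D) :
    (X × Fin K) × Bool → Bool :=
  fun p => if p.2 = true then decide (p.1 ∈ J) else A (f p.1) (decide (p.1 ∉ J))

/-- the simulated literals -/
def simv (A : Fin D → Bool → Bool) (τ : X → Fin K) (f : X × Fin K → Fin D) (I : Finset X) :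
    (X × Fin K) × Bool → Bool :=
  fun p => if p.2 = true then decide (p.1.1 ∈ I ∧ τ p.1.1 = p.1.2)
    else A (f p.1) (decide (τ p.1.1 ≠ p.1.2))

/-- the noise for the simulation -/
def shn (s : Fin D → Fin D) (τ : X → Fin K) (I : Finset X) (f : X × Fin K → Fin D) :
    X × Fin K → Fin D :=
  fun e => if e.1 ∉ I ∧ τ e.1 = e.2 then s (f e) else f e

lemma simv_eq (A : Fin D → Bool → Bool) (s : Fin D → Fin D)
    (hs : ∀ k, A (s k) true = A k false) (τ : X → Fin K) (f : X × Fin K → Fin D) (I : Finset X) :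
    simv A τ f I = view A (tag τ I) (shn s τ I f) := by
  funext ⟨e, b⟩
  rcases b with _ | _
  · simp only [simv, view, shn, Bool.false_eq_true, if_false]
    by_cases h1 : τ e.1 = e.2
    · by_cases h2 : e.1 ∈ I
      · have h3 : e ∈ tag τ I := mem_tag.mpr ⟨h2, h1⟩
        simp [h1, h2, h3]
      · have h3 : e ∉ tag τ I := fun h => h2 (mem_tag.mp h).1
        simp [h1, h2, h3, hs]
    · have h3 : e ∉ tag τ I := fun h => h1 (mem_tag.mp h).2
      simp [h1, h3]
  · simp only [simv, view, if_true]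
    rw [decide_eq_decide]
    exact mem_tag.symm

/-- changing the noise at the places of the absent elements -/
theorem hide_tag [NeZero K] [NeZero D] (s : Fin D → Fin D) (I : Finset X) (c : ℝ) (hc : 0 ≤ c)
    (hK : ∀ a : ℕ, a ≤ Fintype.card X → (1 + ((D : ℝ) - 1) / Fintype.card (Fin K)) ^ a ≤ 1 + c ^ 2)
    (Φ : Finset (X × Fin K) → (X × Fin K → Fin D) → Prop) [∀ J f, Decidable (Φ J f)] :
    |∑ τ : X → Fin K, ∑ f : X × Fin K → Fin D,
        (if Φ (tag τ I) (shn s τ I f) then (1 : ℝ) else 0) -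
      ∑ τ : X → Fin K, ∑ f : X × Fin K → Fin D, (if Φ (tag τ I) f then (1 : ℝ) else 0)| ≤
      c * (Fintype.card (X → Fin K) * (D : ℝ) ^ Fintype.card (X × Fin K)) := by
  classical
  have hD0 : 0 < D := Nat.pos_of_ne_zero (NeZero.ne D)
  have hK0 : 0 < K := Nat.pos_of_ne_zero (NeZero.ne K)
  set A := {c : X // c ∉ I} with hA
  set B := {c : X // ¬ c ∉ I} with hB
  let slot : A × Fin K ↪ X × Fin K := ⟨fun p => (p.1.1, p.2), fun p p' h => by
    have h1 := Prod.mk.inj h
    exact Prod.ext (Subtype.ext h1.1) h1.2⟩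
  let e : (X → Fin K) ≃ (A → Fin K) × (B → Fin K) :=
    Equiv.piEquivPiSubtypeProd (fun c : X => c ∉ I) (fun _ => Fin K)
  have hcong : ∀ (τ τ' : X → Fin K), (∀ c ∈ I, τ c = τ' c) → tag τ I = tag τ' I := by
    intro τ τ' h
    ext x
    rw [mem_tag, mem_tag]
    constructor
    · rintro ⟨h1, h2⟩
      exact ⟨h1, by rw [← h x.1 h1]; exact h2⟩
    · rintro ⟨h1, h2⟩
      exact ⟨h1, by rw [h x.1 h1]; exact h2⟩
  have hJ : ∀ (α α' : A → Fin K) (σ : B → Fin K),
      tag (e.symm (α, σ)) I = tag (e.symm (α', σ)) I := by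
    intro α α' σ
    apply hcong
    intro c hc
    simp [e, Equiv.piEquivPiSubtypeProd, hc]
  have hz : ∀ (α : A → Fin K) (σ : B → Fin K) (f : X × Fin K → Fin D),
      shn s (e.symm (α, σ)) I f = upd s (plc slot α) f := by
    intro α σ f
    funext x
    unfold upd shn
    have h1 : x ∈ plc slot α ↔ x.1 ∉ I ∧ (e.symm (α, σ)) x.1 = x.2 := by
      rw [mem_plc]
      constructor
      · rintro ⟨a, rfl⟩
        refine ⟨a.2, ?_⟩
        show (e.symm (α, σ)) a.1 = α a
        simp [e, Equiv.piEquivPiSubtypeProd, a.2]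
      · rintro ⟨h1, h2⟩
        refine ⟨⟨x.1, h1⟩, ?_⟩
        refine Prod.ext rfl ?_
        show α ⟨x.1, h1⟩ = x.2
        rw [← h2]
        simp [e, Equiv.piEquivPiSubtypeProd, h1]
    by_cases hx : x ∈ plc slot α
    · rw [if_pos (h1.mp hx), if_pos hx]
    · rw [if_neg (fun h => hx (h1.mpr h)), if_neg hx]
  have hmain : ∀ σ : B → Fin K,
      |∑ α : A → Fin K, ∑ f : X × Fin K → Fin D,
        (if Φ (tag (e.symm (α, σ)) I) (upd s (plc slot α) f) then (1 : ℝ) else 0) -
      ∑ α : A → Fin K, ∑ f : X × Fin K → Fin D,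
        (if Φ (tag (e.symm (α, σ)) I) f then (1 : ℝ) else 0)| ≤
        Fintype.card (A → Fin K) * (c * (D : ℝ) ^ Fintype.card (X × Fin K)) := by
    intro σ
    let α0 : A → Fin K := fun _ => 0
    have h1 := hide_noise (D := D) slot s
      (fun f => if Φ (tag (e.symm (α0, σ)) I) f then (1 : ℝ) else 0)
      (fun f => by split_ifs <;> norm_num) (fun f => by split_ifs <;> norm_num) c hc
      (hK _ (Fintype.card_subtype_le _))
    have h2 : ∀ α : A → Fin K, tag (e.symm (α, σ)) I = tag (e.symm (α0, σ)) I :=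
      fun α => hJ α α0 σ
    have h3 : ∑ α : A → Fin K, ∑ f : X × Fin K → Fin D,
        (if Φ (tag (e.symm (α, σ)) I) f then (1 : ℝ) else 0) =
        (Fintype.card (A → Fin K) : ℝ) * ∑ f : X × Fin K → Fin D,
        (if Φ (tag (e.symm (α0, σ)) I) f then (1 : ℝ) else 0) := by
      rw [Finset.sum_congr rfl (fun α _ => by rw [h2 α]), Finset.sum_const, nsmul_eq_mul,
        Finset.card_univ]
    rw [h3]
    have h4 : ∑ α : A → Fin K, ∑ f : X × Fin K → Fin D,
        (if Φ (tag (e.symm (α, σ)) I) (upd s (plc slot α) f) then (1 : ℝ) else 0) =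
        ∑ α : A → Fin K, ∑ f : X × Fin K → Fin D,
        (if Φ (tag (e.symm (α0, σ)) I) (upd s (plc slot α) f) then (1 : ℝ) else 0) :=
      Finset.sum_congr rfl (fun α _ => by rw [h2 α])
    rw [h4]
    exact h1
  have hsum : ∀ g : (X → Fin K) → ℝ, ∑ τ : X → Fin K, g τ =
      ∑ σ : B → Fin K, ∑ α : A → Fin K, g (e.symm (α, σ)) :=
    fun g => sum_splitp (fun c : X => c ∉ I) g
  have h4 : (Fintype.card (X → Fin K) : ℝ) =
      Fintype.card (B → Fin K) * Fintype.card (A → Fin K) :=
    card_splitp (fun c : X => c ∉ I)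
  rw [hsum, hsum (fun τ => ∑ f : X × Fin K → Fin D, (if Φ (tag τ I) f then (1 : ℝ) else 0)),
    ← Finset.sum_sub_distrib, h4]
  refine (Finset.abs_sum_le_sum_abs _ _).trans ?_
  have h5 := Finset.sum_le_sum (fun σ (_ : σ ∈ (univ : Finset (B → Fin K))) => hmain σ)
  rw [Finset.sum_const, nsmul_eq_mul, Finset.card_univ] at h5
  simp only [hz]
  refine h5.trans (le_of_eq ?_)
  ring

/-- the conditions on the noise: for an absent element both values of the noisy negation occur -/
lemma exists_s [NeZero D] (A : Fin D → Bool → Bool) (h0 : ∃ k, A k true = false)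
    (h1 : ∃ k, A k true = true) : ∃ s : Fin D → Fin D, ∀ k, A (s k) true = A k false := by
  obtain ⟨k0, hk0⟩ := h0
  obtain ⟨k1, hk1⟩ := h1
  refine ⟨fun k => if A k false = true then k1 else k0, fun k => ?_⟩
  rcases h : A k false with _ | _
  · simp [h, hk0]
  · simp [h, hk1]

/-- the probability of acceptance of the simulation is close to the one of the noisy circuit -/
theorem simulate [NeZero K] [NeZero D] (A : Fin D → Bool → Bool) (hA0 : ∃ k, A k true = false)
    (hA1 : ∃ k, A k true = true) {R : Type} [Fintype R]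
    (F : R → ((X × Fin K) × Bool → Bool) → Prop) [∀ ρ y, Decidable (F ρ y)]
    (I : Finset X) (c : ℝ) (hc : 0 ≤ c)
    (hK : ∀ a : ℕ, a ≤ Fintype.card X → (1 + ((D : ℝ) - 1) / Fintype.card (Fin K)) ^ a ≤ 1 + c ^ 2) :
    |((univ.filter fun ω : R × (X → Fin K) × (X × Fin K → Fin D) =>
        F ω.1 (simv A ω.2.1 ω.2.2 I)).card : ℝ) -
      ∑ τ : X → Fin K, ((univ.filter fun v : R × (X × Fin K → Fin D) =>
        F v.1 (view A (tag τ I) v.2)).card : ℝ)| ≤
      c * Fintype.card (R × (X → Fin K) × (X × Fin K → Fin D)) := by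
  classical
  obtain ⟨s, hs⟩ := exists_s A hA0 hA1
  have h1 : ((univ.filter fun ω : R × (X → Fin K) × (X × Fin K → Fin D) =>
        F ω.1 (simv A ω.2.1 ω.2.2 I)).card : ℝ) =
      ∑ ρ : R, ∑ τ : X → Fin K, ∑ f : X × Fin K → Fin D,
        (if F ρ (view A (tag τ I) (shn s τ I f)) then (1 : ℝ) else 0) := by
    rw [← Finset.sum_boole, Fintype.sum_prod_type]
    refine Finset.sum_congr rfl (fun ρ _ => ?_)
    rw [Fintype.sum_prod_type]
    refine Finset.sum_congr rfl (fun τ _ => Finset.sum_congr rfl (fun f _ => ?_))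
    rw [simv_eq A s hs]
  have h2 : ∑ τ : X → Fin K, ((univ.filter fun v : R × (X × Fin K → Fin D) =>
        F v.1 (view A (tag τ I) v.2)).card : ℝ) =
      ∑ ρ : R, ∑ τ : X → Fin K, ∑ f : X × Fin K → Fin D,
        (if F ρ (view A (tag τ I) f) then (1 : ℝ) else 0) := by
    rw [Finset.sum_comm]
    refine Finset.sum_congr rfl (fun τ _ => ?_)
    rw [← Finset.sum_boole, Fintype.sum_prod_type]
  have h3 : (Fintype.card (R × (X → Fin K) × (X × Fin K → Fin D)) : ℝ) =
      Fintype.card R * (Fintype.card (X → Fin K) * (D : ℝ) ^ Fintype.card (X × Fin K)) := by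
    rw [Fintype.card_prod, Fintype.card_prod, Fintype.card_fun (α := X × Fin K),
      Fintype.card_fin]
    push_cast
    ring
  rw [h1, h2, h3, ← Finset.sum_sub_distrib]
  refine (Finset.abs_sum_le_sum_abs _ _).trans ?_
  have h4 := Finset.sum_le_sum (fun ρ (_ : ρ ∈ (univ : Finset R)) =>
    hide_tag s I c hc hK (fun J f => F ρ (view A J f)))
  rw [Finset.sum_const, nsmul_eq_mul, Finset.card_univ] at h4
  refine h4.trans (le_of_eq ?_)
  ring

end

lemma pow_le_of' {D K n a C : ℕ} (hD : 0 < D) (han : a ≤ n) (hK0 : 0 < K) (hC : 2 ≤ C)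
    (hK : (C : ℝ) * D * n ≤ K) :
    (1 + ((D : ℝ) - 1) / Fintype.card (Fin K)) ^ a ≤ 1 + 1 / ((C : ℝ) - 1) := by
  rw [Fintype.card_fin]
  have hDR : (1 : ℝ) ≤ D := by exact_mod_cast hD
  have hKR : (0 : ℝ) < K := by exact_mod_cast hK0
  have hCR : (2 : ℝ) ≤ C := by exact_mod_cast hC
  have h0 : 0 ≤ ((D : ℝ) - 1) / K := div_nonneg (by linarith) hKR.le
  have h1 : (1 + ((D : ℝ) - 1) / K) ^ a ≤ Real.exp (1 / C) := by
    calc (1 + ((D : ℝ) - 1) / K) ^ a ≤ (1 + ((D : ℝ) - 1) / K) ^ n :=
          pow_le_pow_right₀ (by linarith) han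
      _ ≤ Real.exp (((D : ℝ) - 1) / K) ^ n := by
          refine pow_le_pow_left₀ (by linarith) ?_ n
          rw [add_comm]
          exact Real.add_one_le_exp _
      _ = Real.exp (n * (((D : ℝ) - 1) / K)) := by rw [← Real.exp_nat_mul]
      _ ≤ Real.exp (1 / C) := by
          apply Real.exp_le_exp.mpr
          rw [mul_div_assoc', div_le_div_iff₀ hKR (by linarith)]
          have : (0 : ℝ) ≤ n := Nat.cast_nonneg n
          nlinarith
  refine h1.trans ?_
  have h2 : (1 : ℝ) - 1 / C ≤ Real.exp (-(1 / C)) := by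
    have := Real.add_one_le_exp (-(1 / (C : ℝ)))
    linarith
  have h3 : Real.exp (1 / (C : ℝ)) * Real.exp (-(1 / C)) = 1 := by
    rw [← Real.exp_add]
    simp
  have h4 : 0 < Real.exp (1 / (C : ℝ)) := Real.exp_pos _
  have h5 : (1 + 1 / ((C : ℝ) - 1)) * (1 - 1 / C) = 1 := by
    have : (C : ℝ) - 1 ≠ 0 := by linarith
    have : (C : ℝ) ≠ 0 := by linarith
    field_simp
    ring
  have h6 : 0 < 1 - 1 / (C : ℝ) := by
    rw [sub_pos, div_lt_one (by linarith)]
    linarith
  have h7 : Real.exp (1 / (C : ℝ)) * (1 - 1 / C) ≤ 1 :=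
    (mul_le_mul_of_nonneg_left h2 h4.le).trans h3.le
  exact le_of_mul_le_mul_right (h7.trans h5.ge) h6

end Pool.Agent.K6.H1.UG
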