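import Pool.Agent.W906.MU.Final
import Pool.Agent.K6.H1.UG.Noise

/-! Unique games with hidden constraints: circuits with noisy negations. -/

set_option autoImplicit false
set_option linter.unusedSectionVars false
set_option linter.unusedVariables false

namespace Pool.Agent.K6.H1.UG.NG

open Finset Pool.Agent.W906.MU

/-- the inputs of the circuits on literals: the values of the literals and the constants -/
def litInputs (E : Type) : Set ((E × Bool → Bool) → ℝ) :=
  {h | (∃ p, h = fun y => if y p = true then 1 else 0) ∨ ∃ c : ℝ, h = fun _ => c}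

lemma prog_sub {E I : Type} {inp : Set (I → ℝ)} (σ : I → E × Bool → Bool)
    (hσ : ∀ p, (fun i => if σ i p = true then (1 : ℝ) else 0) ∈ inp)
    (hconst : ∀ c : ℝ, (fun _ => c) ∈ inp) {l : List ((E × Bool → Bool) → ℝ)}
    (h : Prog (litInputs E) l) : Prog inp (l.map (fun f i => f (σ i))) := by
  induction h with
  | nil => exact Prog.nil
  | input _ hf ih =>
    rw [List.map_cons]
    refine Prog.input ih ?_
    rcases hf with ⟨p, rfl⟩ | ⟨c, rfl⟩
    · exact hσ p
    · exact hconst c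
  | @gate l φ f g _ hφ hf hg ih =>
    rw [List.map_cons]
    exact Prog.gate (f := fun i => f (σ i)) (g := fun i => g (σ i)) ih hφ
      (List.mem_map.mpr ⟨f, hf, rfl⟩) (List.mem_map.mpr ⟨g, hg, rfl⟩)

/-- no element occurs with two tags -/
def Once {X : Type} {K : ℕ} (J : Finset (X × Fin K)) : Prop :=
  ∀ e ∈ J, ∀ e' ∈ J, e.1 = e'.1 → e = e'

lemma once_tag {X : Type} [Fintype X] [DecidableEq X] {K : ℕ} (τ : X → Fin K) (I : Finset X) :
    Once (tag τ I) := by
  intro e he e' he' h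
  have h1 := (mem_tag.mp he).2
  have h2 := (mem_tag.mp he').2
  refine Prod.ext h ?_
  rw [← h1, ← h2, h]

open Classical in
/-- NO instances -/
def NoT {N q K : ℕ} (m : ℕ) (δ : ℝ) (J : Finset (Con N q × Fin K)) : Prop :=
  Once J ∧ J.card = m ∧ ∀ f g, ((J.filter fun e => Sat f g e.1).card : ℝ) ≤ δ * m

open Classical in
/-- YES instances -/
def YesT {N q K : ℕ} (m : ℕ) (ε : ℝ) (J : Finset (Con N q × Fin K)) : Prop :=
  Once J ∧ m ≤ J.card ∧ ∃ f g, ((J.filter fun e => ¬ Sat f g e.1).card : ℝ) ≤ ε * m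

lemma noT_tag {N q K m : ℕ} {δ : ℝ} (τ : Con N q → Fin K) {I : Game N q} (h : NoI m δ I) :
    NoT m δ (tag τ I) := by
  classical
  refine ⟨once_tag τ I, by rw [card_tag]; exact h.1, fun f g => ?_⟩
  have h1 := h.2 f g
  have h2 := card_tag_filter τ I (Sat f g)
  refine le_trans (le_of_eq ?_) h1
  congr 1

lemma yesT_tag {N q K m : ℕ} {ε : ℝ} (τ : Con N q → Fin K) {I : Game N q} (h : YesI m ε I) :
    YesT m ε (tag τ I) := by
  classical
  obtain ⟨h1, f, g, h2⟩ := h
  refine ⟨once_tag τ I, by rw [card_tag]; exact h1, f, g, ?_⟩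
  have h3 := card_tag_filter τ I (fun e => ¬ Sat f g e)
  refine le_trans (le_of_eq ?_) h2
  congr 1

lemma simv_inputs {N q K D : ℕ} (A : Fin D → Bool → Bool) (τ : Con N q → Fin K)
    (f : Con N q × Fin K → Fin D) :
    ∀ p, (fun I => if simv A τ f I p = true then (1 : ℝ) else 0) ∈ inputs N q := by
  classical
  rintro ⟨e, b⟩
  rcases b with _ | _
  · right
    refine ⟨if A (f e) (decide (τ e.1 ≠ e.2)) = true then 1 else 0, ?_⟩
    funext I
    simp [simv]
  · by_cases h : τ e.1 = e.2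
    · left
      refine ⟨e.1, ?_⟩
      funext I
      simp [simv, h]
    · right
      refine ⟨0, ?_⟩
      funext I
      simp [simv, h]

open Classical in
/-- the hidden circuits separate -/
theorem noisy {N q K D m : ℕ} (δ ε : ℝ) (hK0 : 0 < K) (hD : 0 < D)
    (hK : (150 : ℝ) * D * Fintype.card (Con N q) ≤ K) (A : Fin D → Bool → Bool)
    (hA0 : ∃ k, A k true = false) (hA1 : ∃ k, A k true = true)
    {R : Type} [Fintype R] [Nonempty R] (l : R → List (((Con N q × Fin K) × Bool → Bool) → ℝ))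
    (hl : ∀ ρ, Prog (litInputs (Con N q × Fin K)) (l ρ))
    (out : R → ((Con N q × Fin K) × Bool → Bool) → ℝ) (θ : R → ℝ) (hout : ∀ ρ, out ρ ∈ l ρ)
    (h1 : ∀ J : Finset (Con N q × Fin K), NoT m δ J →
      (3 / 4 : ℝ) * (Fintype.card R * (D : ℝ) ^ Fintype.card (Con N q × Fin K)) ≤
      ((univ.filter fun v : R × (Con N q × Fin K → Fin D) =>
        θ v.1 ≤ out v.1 (view A J v.2)).card : ℝ))
    (h2 : ∀ J : Finset (Con N q × Fin K), YesT m ε J →
      ((univ.filter fun v : R × (Con N q × Fin K → Fin D) =>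
        θ v.1 ≤ out v.1 (view A J v.2)).card : ℝ) ≤
      (1 / 4 : ℝ) * (Fintype.card R * (D : ℝ) ^ Fintype.card (Con N q × Fin K))) :
    ∃ l' : R × (Con N q → Fin K) × (Con N q × Fin K → Fin D) → List (Game N q → ℝ),
      (∀ ω, Prog (inputs N q) (l' ω)) ∧
      (∀ ω, (l' ω).length = (l ω.1).length) ∧ Separates m δ ε l' := by
  have _ : NeZero K := ⟨hK0.ne'⟩
  have _ : NeZero D := ⟨hD.ne'⟩
  have htot : (Fintype.card (R × (Con N q → Fin K) × (Con N q × Fin K → Fin D)) : ℝ) =
      Fintype.card (Con N q → Fin K) * (Fintype.card R *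
        (D : ℝ) ^ Fintype.card (Con N q × Fin K)) := by
    rw [Fintype.card_prod, Fintype.card_prod, Fintype.card_fun (α := Con N q × Fin K),
      Fintype.card_fin]
    push_cast
    ring
  have hpow : ∀ a : ℕ, a ≤ Fintype.card (Con N q) →
      (1 + ((D : ℝ) - 1) / Fintype.card (Fin K)) ^ a ≤ 1 + (1 / 12 : ℝ) ^ 2 := by
    intro a ha
    refine (pow_le_of' (C := 150) hD ha hK0 (by norm_num) (by exact_mod_cast hK)).trans ?_
    norm_num
  refine ⟨fun ω => (l ω.1).map (fun f I => f (simv A ω.2.1 ω.2.2 I)), fun ω => ?_,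
    fun ω => ?_, ?_⟩
  · exact prog_sub _ (simv_inputs A ω.2.1 _) (fun c => Or.inr ⟨c, rfl⟩) (hl ω.1)
  · rw [List.length_map]
  refine ⟨fun ω I => out ω.1 (simv A ω.2.1 ω.2.2 I), fun ω => θ ω.1, fun ω => ?_,
    fun I hI => ?_, fun I hI => ?_⟩
  · exact List.mem_map.mpr ⟨out ω.1, hout ω.1, rfl⟩
  · have h3 := simulate A hA0 hA1 (fun ρ y => θ ρ ≤ out ρ y) I (1 / 12) (by norm_num) hpow
    have h4 := Finset.sum_le_sum (fun τ (_ : τ ∈ (univ : Finset (Con N q → Fin K))) =>
      h1 _ (noT_tag τ hI))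
    rw [Finset.sum_const, nsmul_eq_mul, Finset.card_univ] at h4
    have h5 := (abs_le.mp h3).1
    have h7 : (2 : ℝ) * Fintype.card (R × (Con N q → Fin K) × (Con N q × Fin K → Fin D)) ≤
        3 * ((univ.filter fun ω : R × (Con N q → Fin K) × (Con N q × Fin K → Fin D) =>
          θ ω.1 ≤ out ω.1 (simv A ω.2.1 ω.2.2 I)).card : ℝ) := by
      rw [htot] at h5 ⊢
      have e1 : (Fintype.card (Con N q → Fin K) : ℝ) *
          ((3 / 4 : ℝ) * (Fintype.card R * (D : ℝ) ^ Fintype.card (Con N q × Fin K))) =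
          3 / 4 * (Fintype.card (Con N q → Fin K) * (Fintype.card R *
            (D : ℝ) ^ Fintype.card (Con N q × Fin K))) := by ring
      rw [e1] at h4
      linarith
    exact_mod_cast h7
  · have h3 := simulate A hA0 hA1 (fun ρ y => θ ρ ≤ out ρ y) I (1 / 12) (by norm_num) hpow
    have h4 := Finset.sum_le_sum (fun τ (_ : τ ∈ (univ : Finset (Con N q → Fin K))) =>
      h2 _ (yesT_tag τ hI))
    rw [Finset.sum_const, nsmul_eq_mul, Finset.card_univ] at h4
    have h5 := (abs_le.mp h3).2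
    have h6 := Finset.card_filter_add_card_filter_not
      (s := (univ : Finset (R × (Con N q → Fin K) × (Con N q × Fin K → Fin D))))
      (p := fun ω => θ ω.1 ≤ out ω.1 (simv A ω.2.1 ω.2.2 I))
    rw [Finset.card_univ] at h6
    have h7 : (univ.filter fun ω : R × (Con N q → Fin K) × (Con N q × Fin K → Fin D) =>
        ¬ θ ω.1 ≤ out ω.1 (simv A ω.2.1 ω.2.2 I)) =
        univ.filter fun ω : R × (Con N q → Fin K) × (Con N q × Fin K → Fin D) =>
          out ω.1 (simv A ω.2.1 ω.2.2 I) < θ ω.1 := by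
      ext ω
      simp
    rw [h7] at h6
    have h8 : ((univ.filter fun ω : R × (Con N q → Fin K) × (Con N q × Fin K → Fin D) =>
          θ ω.1 ≤ out ω.1 (simv A ω.2.1 ω.2.2 I)).card : ℝ) +
        ((univ.filter fun ω : R × (Con N q → Fin K) × (Con N q × Fin K → Fin D) =>
          out ω.1 (simv A ω.2.1 ω.2.2 I) < θ ω.1).card : ℝ) =
        Fintype.card (R × (Con N q → Fin K) × (Con N q × Fin K → Fin D)) := by
      exact_mod_cast h6
    have h9 : (2 : ℝ) * Fintype.card (R × (Con N q → Fin K) × (Con N q × Fin K → Fin D)) ≤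
        3 * ((univ.filter fun ω : R × (Con N q → Fin K) × (Con N q × Fin K → Fin D) =>
          out ω.1 (simv A ω.2.1 ω.2.2 I) < θ ω.1).card : ℝ) := by
      rw [htot] at h5 h8 ⊢
      have e1 : (Fintype.card (Con N q → Fin K) : ℝ) *
          ((1 / 4 : ℝ) * (Fintype.card R * (D : ℝ) ^ Fintype.card (Con N q × Fin K))) =
          1 / 4 * (Fintype.card (Con N q → Fin K) * (Fintype.card R *
            (D : ℝ) ^ Fintype.card (Con N q × Fin K))) := by ring
      rw [e1] at h4
      linarith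
    exact_mod_cast h9

end Pool.Agent.K6.H1.UG.NG
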