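import Pool.Agent.H589R3.DT.Two
import Pool.Agent.K6.H1.UG.Noise

/-! 2-to-1 games with hidden constraints: circuits with noisy negations. -/

set_option autoImplicit false
set_option linter.unusedSectionVars false
set_option linter.unusedVariables false

namespace Pool.Agent.K6.H1.UG.NT

open Finset H630VC H589DT

/-- the inputs of the circuits on literals: the values of the literals and the constants -/
def litInputs (E : Type) : Set ((E × Bool → Bool) → ℝ) :=
  {h | (∃ p, h = fun y => if y p = true then 1 else 0) ∨ ∃ c : ℝ, h = fun _ => c}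

lemma prog_sub {E I : Type} {inp : Set (I → ℝ)} (σ : I → E × Bool → Bool)
    (hσ : ∀ p, (fun i => if σ i p = true then (1 : ℝ) else 0) ∈ inp)
    (hconst : ∀ c : ℝ, (fun _ => c) ∈ inp) {l : List ((E × Bool → Bool) → ℝ)}
    (h : Prog (litInputs E) l) : Prog inp (l.map (fun f i => f (σ i))) := by
  induction h with
  | nil => exact Prog.nil
  | input _ hf ih =>
    rw [List.map_cons]
    refine Prog.input ih ?_
    rcases hf with ⟨p, rfl⟩ | ⟨c, rfl⟩
    · exact hσ p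
    · exact hconst c
  | @gate l φ f g _ hφ hf hg ih =>
    rw [List.map_cons]
    exact Prog.gate (f := fun i => f (σ i)) (g := fun i => g (σ i)) ih hφ
      (List.mem_map.mpr ⟨f, hf, rfl⟩) (List.mem_map.mpr ⟨g, hg, rfl⟩)

/-- the constraints -/
abbrev Cn (N q : ℕ) : Type := Fin N × Fin N × (Fin q → Fin q)

open Classical in
/-- the set of constraints of a game -/
noncomputable def cons {N q : ℕ} (I : TGame (Fin N) (Fin N) q) : Finset (Cn N q) :=
  univ.filter fun c => I.adj c.1 c.2.1 ∧ I.map c.1 c.2.1 = c.2.2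

lemma mem_cons' {N q : ℕ} {I : TGame (Fin N) (Fin N) q} {c : Cn N q} :
    c ∈ cons I ↔ I.adj c.1 c.2.1 ∧ I.map c.1 c.2.1 = c.2.2 := by
  classical
  simp [cons]

/-- 2-to-1 games: at least one edge, at most one edge for each pair of vertices, fibers of the
constraints with at most two elements -/
def IsTwo {N q K : ℕ} (J : Finset (Cn N q × Fin K)) : Prop :=
  J.Nonempty ∧
  (∀ e ∈ J, ∀ e' ∈ J, e.1.1 = e'.1.1 → e.1.2.1 = e'.1.2.1 → e = e') ∧
  ∀ e ∈ J, ∀ b, (univ.filter fun a => e.1.2.2 a = b).card ≤ 2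

open Classical in
/-- value at most `δ` -/
def NoT {N q K : ℕ} (δ : ℝ) (J : Finset (Cn N q × Fin K)) : Prop :=
  IsTwo J ∧ ∀ A B : Fin N → Fin q,
    ((J.filter fun e => e.1.2.2 (A e.1.1) = B e.1.2.1).card : ℝ) ≤ δ * J.card

/-- value one -/
def YesT {N q K : ℕ} (J : Finset (Cn N q × Fin K)) : Prop :=
  IsTwo J ∧ ∃ A B : Fin N → Fin q, ∀ e ∈ J, e.1.2.2 (A e.1.1) = B e.1.2.1

lemma isTwo_tag {N q K : ℕ} (τ : Cn N q → Fin K) (I : TGame (Fin N) (Fin N) q)
    (h : ∃ u v, I.adj u v) : IsTwo (tag τ (cons I)) := by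
  classical
  refine ⟨?_, ?_, ?_⟩
  · obtain ⟨u, v, huv⟩ := h
    exact ⟨((u, v, I.map u v), τ (u, v, I.map u v)), mem_tag.mpr ⟨mem_cons'.mpr ⟨huv, rfl⟩, rfl⟩⟩
  · intro e he e' he' h1 h2
    obtain ⟨h3, h4⟩ := mem_tag.mp he
    obtain ⟨h3', h4'⟩ := mem_tag.mp he'
    have h5 : e.1 = e'.1 := by
      refine Prod.ext h1 (Prod.ext h2 ?_)
      rw [← (mem_cons'.mp h3).2, ← (mem_cons'.mp h3').2, h1, h2]
    refine Prod.ext h5 ?_
    rw [← h4, ← h4', h5]
  · intro e he b
    obtain ⟨h3, -⟩ := mem_tag.mp he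
    obtain ⟨h4, h5⟩ := mem_cons'.mp h3
    rw [← h5]
    convert I.fib e.1.1 e.1.2.1 h4 b

open Classical in
lemma card_cons_filter {N q : ℕ} (I : TGame (Fin N) (Fin N) q)
    (P : Fin N → Fin N → (Fin q → Fin q) → Prop) :
    ((cons I).filter fun c => P c.1 c.2.1 c.2.2).card =
      (univ.filter fun p : Fin N × Fin N => I.adj p.1 p.2 ∧ P p.1 p.2 (I.map p.1 p.2)).card := by
  symm
  refine Finset.card_bij (fun p _ => (p.1, p.2, I.map p.1 p.2)) ?_ ?_ ?_
  · intro p hp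
    have hp' := (Finset.mem_filter.mp hp).2
    exact Finset.mem_filter.mpr ⟨mem_cons'.mpr ⟨hp'.1, rfl⟩, hp'.2⟩
  · intro p _ p' _ h
    have h1 := Prod.mk.inj h
    exact Prod.ext h1.1 (Prod.mk.inj h1.2).1
  · intro c hc
    obtain ⟨h1, h2⟩ := Finset.mem_filter.mp hc
    obtain ⟨h3, h4⟩ := mem_cons'.mp h1
    refine ⟨(c.1, c.2.1), Finset.mem_filter.mpr ⟨Finset.mem_univ _, h3, ?_⟩, ?_⟩
    · show P c.1 c.2.1 (I.map c.1 c.2.1)
      rw [h4]
      exact h2
    · show (c.1, c.2.1, I.map c.1 c.2.1) = c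
      rw [h4]

lemma noT_tag {N q K : ℕ} {δ : ℝ} (τ : Cn N q → Fin K) {I : TGame (Fin N) (Fin N) q}
    (h : TNo δ I) : NoT δ (tag τ (cons I)) := by
  classical
  refine ⟨isTwo_tag τ I h.1, fun A B => ?_⟩
  have h1 := h.2 A B
  have h2 : ((tag τ (cons I)).filter fun e => e.1.2.2 (A e.1.1) = B e.1.2.1).card =
      ((cons I).filter fun c => c.2.2 (A c.1) = B c.2.1).card := by
    have := card_tag_filter τ (cons I) (fun c => c.2.2 (A c.1) = B c.2.1)
    convert this
  have h3 : ((cons I).filter fun c => c.2.2 (A c.1) = B c.2.1).card =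
      (univ.filter fun p : Fin N × Fin N => I.adj p.1 p.2 ∧ I.map p.1 p.2 (A p.1) = B p.2).card := by
    have := card_cons_filter I (fun u v π => π (A u) = B v)
    convert this
  have h4 := card_cons_filter I (fun _ _ _ => True)
  simp only [and_true, Finset.filter_true] at h4
  rw [card_tag, h4]
  rw [h2.trans h3]
  exact h1

lemma yesT_tag {N q K : ℕ} (τ : Cn N q → Fin K) {I : TGame (Fin N) (Fin N) q}
    (h : TYes I) : YesT (tag τ (cons I)) := by
  refine ⟨isTwo_tag τ I h.1, ?_⟩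
  obtain ⟨A, B, hAB⟩ := h.2
  refine ⟨A, B, fun e he => ?_⟩
  obtain ⟨h3, -⟩ := mem_tag.mp he
  obtain ⟨h4, h5⟩ := mem_cons'.mp h3
  rw [← h5]
  exact hAB _ _ h4

lemma simv_inputs {N q K D : ℕ} (A : Fin D → Bool → Bool) (τ : Cn N q → Fin K)
    (f : Cn N q × Fin K → Fin D) :
    ∀ p, (fun I => if simv A τ f (cons I) p = true then (1 : ℝ) else 0) ∈
      tInputs (Fin N) (Fin N) q := by
  classical
  rintro ⟨e, b⟩
  rcases b with _ | _
  · right
    refine ⟨if A (f e) (decide (τ e.1 ≠ e.2)) = true then 1 else 0, ?_⟩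
    funext I
    simp [simv]
  · by_cases h : τ e.1 = e.2
    · left
      refine ⟨e.1.1, e.1.2.1, e.1.2.2, ?_⟩
      funext I
      simp [simv, h, mem_cons']
    · right
      refine ⟨0, ?_⟩
      funext I
      simp [simv, h]

open Classical in
/-- the lower bound -/
theorem noisy_two (δ : ℝ) (hδ : 0 < δ) : ∃ q : ℕ, 1 ≤ q ∧ ∃ N0 : ℕ, ∀ N D K : ℕ, N0 ≤ N →
    1 ≤ K → 500 * D * N ^ 2 * q ^ q ≤ K →
    ∀ A : Fin D → Bool → Bool, (∃ k, A k true = false) → (∃ k, A k true = true) →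
    ∀ (R : Type) [Fintype R] [Nonempty R] (l : R → List (((Cn N q × Fin K) × Bool → Bool) → ℝ))
      (hl : ∀ ρ, Prog (litInputs (Cn N q × Fin K)) (l ρ))
      (out : R → ((Cn N q × Fin K) × Bool → Bool) → ℝ) (θ : R → ℝ) (hout : ∀ ρ, out ρ ∈ l ρ)
      (h1 : ∀ J : Finset (Cn N q × Fin K), NoT δ J →
        (4 / 5 : ℝ) * (Fintype.card R * (D : ℝ) ^ Fintype.card (Cn N q × Fin K)) ≤
        ((univ.filter fun v : R × (Cn N q × Fin K → Fin D) =>
          θ v.1 ≤ out v.1 (view A J v.2)).card : ℝ))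
      (h2 : ∀ J : Finset (Cn N q × Fin K), YesT J →
        ((univ.filter fun v : R × (Cn N q × Fin K → Fin D) =>
          θ v.1 ≤ out v.1 (view A J v.2)).card : ℝ) ≤
        (1 / 5 : ℝ) * (Fintype.card R * (D : ℝ) ^ Fintype.card (Cn N q × Fin K))),
      ∃ ρ, (2 : ℝ) ^ ((N : ℝ) ^ (1 / 14 : ℝ)) ≤ (l ρ).length + 1 := by
  obtain ⟨q, hq, N0, H⟩ := two2one δ hδ
  refine ⟨q, hq, N0, ?_⟩
  intro N D K hN hK0 hKD A hA0 hA1 R _ _ l hl out θ hout h1 h2
  have hD : 1 ≤ D := by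
    obtain ⟨k, -⟩ := hA0
    exact Nat.one_le_iff_ne_zero.mpr (fun h => by subst h; exact k.elim0)
  have _ : NeZero K := ⟨by omega⟩
  have _ : NeZero D := ⟨by omega⟩
  have hcard : Fintype.card (Cn N q) = N ^ 2 * q ^ q := by
    rw [Fintype.card_prod, Fintype.card_prod, Fintype.card_fun, Fintype.card_fin,
      Fintype.card_fin]
    ring
  have htot : (Fintype.card (R × (Cn N q → Fin K) × (Cn N q × Fin K → Fin D)) : ℝ) =
      Fintype.card (Cn N q → Fin K) * (Fintype.card R *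
        (D : ℝ) ^ Fintype.card (Cn N q × Fin K)) := by
    rw [Fintype.card_prod, Fintype.card_prod, Fintype.card_fun (α := Cn N q × Fin K),
      Fintype.card_fin]
    push_cast
    ring
  have hpow : ∀ a : ℕ, a ≤ Fintype.card (Cn N q) →
      (1 + ((D : ℝ) - 1) / Fintype.card (Fin K)) ^ a ≤ 1 + (1 / 20 : ℝ) ^ 2 := by
    intro a ha
    refine (pow_le_of' (C := 500) hD ha hK0 (by norm_num) (by
      rw [hcard]
      have h3 : ((500 * D * N ^ 2 * q ^ q : ℕ) : ℝ) ≤ K := by exact_mod_cast hKD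
      push_cast at h3 ⊢
      linarith)).trans ?_
    norm_num
  set φ : R → ℝ → ℝ → ℝ := fun ρ a _ => if θ ρ ≤ a then 1 else 0 with hφ
  have hφm : ∀ ρ, Mono2 (φ ρ) := by
    intro ρ a a' b b' ha _
    rw [hφ]
    simp only
    by_cases h : θ ρ ≤ a
    · rw [if_pos h, if_pos (h.trans ha)]
    · rw [if_neg h]
      split_ifs <;> norm_num
  set l' : R × (Cn N q → Fin K) × (Cn N q × Fin K → Fin D) → List (TGame (Fin N) (Fin N) q → ℝ) :=
    fun ω => (fun I => φ ω.1 (out ω.1 (simv A ω.2.1 ω.2.2 (cons I)))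
      (out ω.1 (simv A ω.2.1 ω.2.2 (cons I)))) ::
      (l ω.1).map (fun f I => f (simv A ω.2.1 ω.2.2 (cons I))) with hl'
  have hmem : ∀ ω : R × (Cn N q → Fin K) × (Cn N q × Fin K → Fin D),
      (fun I => out ω.1 (simv A ω.2.1 ω.2.2 (cons I))) ∈
        (l ω.1).map (fun f (I : TGame (Fin N) (Fin N) q) => f (simv A ω.2.1 ω.2.2 (cons I))) :=
    fun ω => List.mem_map.mpr ⟨out ω.1, hout ω.1, rfl⟩
  have hprog : ∀ ω, Prog (tInputs (Fin N) (Fin N) q) (l' ω) := by
    intro ω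
    exact Prog.gate (prog_sub _ (simv_inputs A ω.2.1 ω.2.2) (fun c => Or.inr ⟨c, rfl⟩) (hl ω.1))
      (hφm ω.1) (hmem ω) (hmem ω)
  have hval : ∀ (ω : R × (Cn N q → Fin K) × (Cn N q × Fin K → Fin D))
      (I : TGame (Fin N) (Fin N) q),
      1 ≤ φ ω.1 (out ω.1 (simv A ω.2.1 ω.2.2 (cons I)))
        (out ω.1 (simv A ω.2.1 ω.2.2 (cons I))) ↔
      θ ω.1 ≤ out ω.1 (simv A ω.2.1 ω.2.2 (cons I)) := by
    intro ω I
    rw [hφ]
    simp only
    by_cases h : θ ω.1 ≤ out ω.1 (simv A ω.2.1 ω.2.2 (cons I))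
    · simp [h]
    · rw [if_neg h]
      simp [h]
  have _ : Nonempty (R × (Cn N q → Fin K) × (Cn N q × Fin K → Fin D)) :=
    ⟨(Classical.arbitrary R, fun _ => 0, fun _ => 0)⟩
  have hdec : TDecides δ l' := by
    refine ⟨fun ω I => φ ω.1 (out ω.1 (simv A ω.2.1 ω.2.2 (cons I)))
      (out ω.1 (simv A ω.2.1 ω.2.2 (cons I))), fun ω => List.mem_cons_self, fun I =>
      ⟨fun hI => ?_, fun hI => ?_⟩⟩
    · have h3 := simulate A hA0 hA1 (fun ρ y => θ ρ ≤ out ρ y) (cons I) (1 / 20) (by norm_num) hpow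
      have h4 := Finset.sum_le_sum (fun τ (_ : τ ∈ (univ : Finset (Cn N q → Fin K))) =>
        h1 _ (noT_tag τ hI))
      rw [Finset.sum_const, nsmul_eq_mul, Finset.card_univ] at h4
      have h5 := (abs_le.mp h3).1
      have h7 : (3 : ℝ) * Fintype.card (R × (Cn N q → Fin K) × (Cn N q × Fin K → Fin D)) ≤
          4 * ((univ.filter fun ω : R × (Cn N q → Fin K) × (Cn N q × Fin K → Fin D) =>
            θ ω.1 ≤ out ω.1 (simv A ω.2.1 ω.2.2 (cons I))).card : ℝ) := by
        rw [htot] at h5 ⊢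
        have e1 : (Fintype.card (Cn N q → Fin K) : ℝ) *
            ((4 / 5 : ℝ) * (Fintype.card R * (D : ℝ) ^ Fintype.card (Cn N q × Fin K))) =
            4 / 5 * (Fintype.card (Cn N q → Fin K) * (Fintype.card R *
              (D : ℝ) ^ Fintype.card (Cn N q × Fin K))) := by ring
        rw [e1] at h4
        linarith
      simp only [hval]
      exact_mod_cast h7
    · have h3 := simulate A hA0 hA1 (fun ρ y => θ ρ ≤ out ρ y) (cons I) (1 / 20) (by norm_num) hpow
      have h4 := Finset.sum_le_sum (fun τ (_ : τ ∈ (univ : Finset (Cn N q → Fin K))) =>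
        h2 _ (yesT_tag τ hI))
      rw [Finset.sum_const, nsmul_eq_mul, Finset.card_univ] at h4
      have h5 := (abs_le.mp h3).2
      have h6 := Finset.card_filter_add_card_filter_not
        (s := (univ : Finset (R × (Cn N q → Fin K) × (Cn N q × Fin K → Fin D))))
        (p := fun ω => θ ω.1 ≤ out ω.1 (simv A ω.2.1 ω.2.2 (cons I)))
      rw [Finset.card_univ] at h6
      have h8 : ((univ.filter fun ω : R × (Cn N q → Fin K) × (Cn N q × Fin K → Fin D) =>
            θ ω.1 ≤ out ω.1 (simv A ω.2.1 ω.2.2 (cons I))).card : ℝ) +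
          ((univ.filter fun ω : R × (Cn N q → Fin K) × (Cn N q × Fin K → Fin D) =>
            ¬ θ ω.1 ≤ out ω.1 (simv A ω.2.1 ω.2.2 (cons I))).card : ℝ) =
          Fintype.card (R × (Cn N q → Fin K) × (Cn N q × Fin K → Fin D)) := by
        exact_mod_cast h6
      have h9 : (3 : ℝ) * Fintype.card (R × (Cn N q → Fin K) × (Cn N q × Fin K → Fin D)) ≤
          4 * ((univ.filter fun ω : R × (Cn N q → Fin K) × (Cn N q × Fin K → Fin D) =>
            ¬ θ ω.1 ≤ out ω.1 (simv A ω.2.1 ω.2.2 (cons I))).card : ℝ) := by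
        rw [htot] at h5 h8 ⊢
        have e1 : (Fintype.card (Cn N q → Fin K) : ℝ) *
            ((1 / 5 : ℝ) * (Fintype.card R * (D : ℝ) ^ Fintype.card (Cn N q × Fin K))) =
            1 / 5 * (Fintype.card (Cn N q → Fin K) * (Fintype.card R *
              (D : ℝ) ^ Fintype.card (Cn N q × Fin K))) := by ring
        rw [e1] at h4
        linarith
      have h10 : ∀ (ω : R × (Cn N q → Fin K) × (Cn N q × Fin K → Fin D)),
          (φ ω.1 (out ω.1 (simv A ω.2.1 ω.2.2 (cons I)))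
            (out ω.1 (simv A ω.2.1 ω.2.2 (cons I))) < 1 ↔
            ¬ θ ω.1 ≤ out ω.1 (simv A ω.2.1 ω.2.2 (cons I))) := by
        intro ω
        rw [← hval ω I, not_le]
      simp only [h10]
      exact_mod_cast h9
  obtain ⟨ω, hω⟩ := H N hN _ l' hprog hdec
  refine ⟨ω.1, hω.trans ?_⟩
  rw [hl']
  simp only [List.length_cons, List.length_map]
  push_cast
  exact le_refl _

end Pool.Agent.K6.H1.UG.NT
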